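import Mathlib
import Pool.Agent.Helper669.Forcing

/-!
# Lightface generic absoluteness for the hereditarily countable sets

The structure `H(ω₁)` is presented in the usual way as a many-sorted structure. Its objects are

* the natural numbers,
* the countable ordinals (the elements of the well-ordered type `Om` of order type `ω₁`),
* the sets of natural numbers (reals),
* the countable relations between countable ordinals and natural numbers.

Every hereditarily countable set is coded by a real, and all the objects above are hereditarily
countable, so that the sentences about `H(ω₁)` and the sentences of the language below express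
the same properties of the universe.

For a partially ordered set `P` of conditions the forcing relation for this language is defined
by recursion on formulas. The countable ordinals of the extension are those of the ground model,
because the posets considered preserve stationary subsets of `ω₁`, hence preserve `ω₁`.
-/

set_option autoImplicit false

namespace Pool.Agent.Helper97.LC

open Pool.Agent.Helper669.Forcing

/-- The countable ordinals: a well-ordered type of order type `ω₁`. -/
abbrev Om : Type := (Cardinal.aleph 1).ord.ToType

noncomputable instance : Inhabited Om :=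
  ⟨(wellFounded_lt (α := Om)).min Set.univ (by
    have : Nonempty Om := by
      rw [← Cardinal.mk_ne_zero_iff, Cardinal.mk_ord_toType]
      exact (Cardinal.aleph_pos 1).ne'
    exact Set.univ_nonempty)⟩

/-- Terms denoting natural numbers. -/
inductive Tm where
  | var (i : ℕ)
  | zero
  | succ (t : Tm)
  | add (s t : Tm)
  | mul (s t : Tm)
  | pair (s t : Tm)

/-- The value of a term; `pair` is the standard pairing function `Nat.pair`. -/
def Tm.eval (n : ℕ → ℕ) : Tm → ℕ
  | .var i => n i
  | .zero => 0
  | .succ t => t.eval n + 1
  | .add s t => s.eval n + t.eval n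
  | .mul s t => s.eval n * t.eval n
  | .pair s t => Nat.pair (s.eval n) (t.eval n)

/-- Formulas. There are four kinds of variables: for natural numbers, for countable ordinals, for
sets of natural numbers, and for countable relations between ordinals and natural numbers. -/
inductive Fm where
  /-- the numbers `s` and `t` are equal -/
  | eq (s t : Tm)
  /-- the digit number `t` in the binary expansion of `s` is `1` -/
  | bit (s t : Tm)
  /-- the ordinal `i` is less than the ordinal `j` -/
  | lt (i j : ℕ)
  /-- the number `t` belongs to the set of numbers `i` -/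
  | memS (i : ℕ) (t : Tm)
  /-- the ordinal `j` and the number `t` are in the relation `i` -/
  | memR (i j : ℕ) (t : Tm)
  | neg (φ : Fm)
  | and (φ ψ : Fm)
  /-- for all numbers -/
  | allN (i : ℕ) (φ : Fm)
  /-- for all countable ordinals -/
  | allO (i : ℕ) (φ : Fm)
  /-- for all sets of numbers -/
  | allS (i : ℕ) (φ : Fm)
  /-- for all countable relations between ordinals and numbers -/
  | allR (i : ℕ) (φ : Fm)

/-- An assignment of values to the variables; the values of the set variables are in `S` and those
of the relation variables are in `R`. -/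
@[ext]
structure Val (S R : Type) where
  n : ℕ → ℕ
  o : ℕ → Om
  s : ℕ → S
  r : ℕ → R

namespace Val

variable {S R : Type}

/-- change the value of one variable -/
def setN (v : Val S R) (i k : ℕ) : Val S R := { v with n := Function.update v.n i k }
/-- change the value of one variable -/
noncomputable def setO (v : Val S R) (i : ℕ) (γ : Om) : Val S R := { v with o := Function.update v.o i γ }
/-- change the value of one variable -/
def setS (v : Val S R) (i : ℕ) (x : S) : Val S R := { v with s := Function.update v.s i x }
/-- change the value of one variable -/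
def setR (v : Val S R) (i : ℕ) (x : R) : Val S R := { v with r := Function.update v.r i x }

end Val

/-- A relation between ordinals and numbers is countable iff it is bounded in `Om`. -/
def Bdd (X : Om → ℕ → Prop) : Prop := ∃ δ : Om, ∀ γ n, X γ n → γ < δ

/-- Truth in `H(ω₁)`. -/
def Sat : Fm → Val (ℕ → Prop) (Om → ℕ → Prop) → Prop
  | .eq s t, v => s.eval v.n = t.eval v.n
  | .bit s t, v => (s.eval v.n).testBit (t.eval v.n) = true
  | .lt i j, v => v.o i < v.o j
  | .memS i t, v => v.s i (t.eval v.n)
  | .memR i j t, v => v.r i (v.o j) (t.eval v.n)
  | .neg φ, v => ¬ Sat φ v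
  | .and φ ψ, v => Sat φ v ∧ Sat ψ v
  | .allN i φ, v => ∀ k, Sat φ (v.setN i k)
  | .allO i φ, v => ∀ γ, Sat φ (v.setO i γ)
  | .allS i φ, v => ∀ x, Sat φ (v.setS i x)
  | .allR i φ, v => ∀ X, Bdd X → Sat φ (v.setR i X)

/-- The conditions forcing that the relation named by `N` is bounded. -/
def fbdd {P : Type} [Preorder P] (N : Om → ℕ → Set P) : Set P :=
  fex fun δ : Om => fall fun γ : Om => fall fun n : ℕ =>
    fimp (meets (N γ n)) (fground (γ < δ))

/-- The forcing relation: the set of the conditions forcing that the formula is true in the
`H(ω₁)` of the extension. The values of the set and relation variables are names. -/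
def FSat (P : Type) [Preorder P] : Fm → Val (ℕ → Set P) (Om → ℕ → Set P) → Set P
  | .eq s t, v => fground (s.eval v.n = t.eval v.n)
  | .bit s t, v => fground ((s.eval v.n).testBit (t.eval v.n) = true)
  | .lt i j, v => fground (v.o i < v.o j)
  | .memS i t, v => meets (v.s i (t.eval v.n))
  | .memR i j t, v => meets (v.r i (v.o j) (t.eval v.n))
  | .neg φ, v => fnot (FSat P φ v)
  | .and φ ψ, v => fand (FSat P φ v) (FSat P ψ v)
  | .allN i φ, v => fall fun k => FSat P φ (v.setN i k)
  | .allO i φ, v => fall fun γ => FSat P φ (v.setO i γ)
  | .allS i φ, v => fall fun x => FSat P φ (v.setS i x)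
  | .allR i φ, v => fall fun N => fimp (fbdd N) (FSat P φ (v.setR i N))

/-- `δ` is not `0` and it is closed under `f`. -/
def ClosedUnder (f : Om → Om) (δ : Om) : Prop := (∃ γ, γ < δ) ∧ ∀ γ < δ, f γ < δ

/-- Forcing with `P` preserves the stationary subsets of `ω₁`: if `S` is stationary in the ground
model, then every condition forces that for every function from `ω₁` to `ω₁` there is a nonzero
ordinal in `S` closed under the function. (A set is stationary, that is, it meets every closed
unbounded set, iff it contains a nonzero closure
point of every function from `ω₁` to `ω₁`, see `stationary_iff` in `Om.lean`. In particular `P`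
preserves `ω₁`.) -/
def StatPres (P : Type) [Preorder P] : Prop :=
  ∀ S : Set Om, IsStationary S → ∀ F : Om → Om → Set P, ∀ p ∈ IsFun F,
    p ∈ fex fun δ : Om => fand (fground (δ ∈ S ∧ ∃ γ, γ < δ))
      (fall fun γ : Om => fall fun _ : γ < δ => fex fun η : Om =>
        fand (fground (η < δ)) (meets (F γ η)))

/-- The assignment giving all variables the value `0` or `∅`, in the ground model. -/
noncomputable def zeroV : Val (ℕ → Prop) (Om → ℕ → Prop) :=
  ⟨fun _ => 0, fun _ => default, fun _ _ => False, fun _ _ _ => False⟩

/-- The assignment giving all variables the value `0` or `∅`, in the extension. -/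
noncomputable def zeroF (P : Type) : Val (ℕ → Set P) (Om → ℕ → Set P) :=
  ⟨fun _ => 0, fun _ => default, fun _ _ => ∅, fun _ _ _ => ∅⟩

/-- The lightface axiom `A(H(ω₁), Σ_ω, Stat-pres)`: for every poset preserving stationary subsets
of `ω₁`, a sentence without parameters is true in `H(ω₁)` iff it is forced to be true in the
`H(ω₁)` of the extension. -/
def LightfaceStatPres : Prop :=
  ∀ (P : Type) [Preorder P] [Nonempty P], StatPres P →
    ∀ φ : Fm, Sat φ zeroV ↔ ∀ p : P, p ∈ FSat P φ (zeroF P)

/-! ### Operators -/

/-- The canonical name of a relation. -/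
def chkR {P : Type} (X : Om → ℕ → Prop) : Om → ℕ → Set P := fun γ n => {_p | X γ n}

/-- The canonical name of a set of numbers. -/
def chkS {P : Type} (x : ℕ → Prop) : ℕ → Set P := fun n => {_p | x n}

/-- The set `A ∩ δ`, as a relation (between its elements and the number `0`). -/
def initA (A : Set Om) (δ : Om) : Om → ℕ → Prop := fun γ n => γ ∈ A ∧ γ < δ ∧ n = 0

/-- The formula `ψ` holds of the ordinal `δ` and the relations `X` and `R`: the ordinal variable
`0` has the value `δ`, the relation variables `0` and `1` have the values `X` and `R`, and all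
other variables have the value `0` or `∅`. -/
def Holds (ψ : Fm) (δ : Om) (X R : Om → ℕ → Prop) : Prop :=
  Sat ψ (((zeroV.setO 0 δ).setR 0 X).setR 1 R)

/-- The conditions forcing that `ψ` holds of the ordinal `δ` and the relations named by
`X` and `R`. -/
def FHolds (P : Type) [Preorder P] (ψ : Fm) (δ : Om) (X R : Om → ℕ → Set P) : Set P :=
  FSat P ψ ((((zeroF P).setO 0 δ).setR 0 X).setR 1 R)

/-- The family `ℰ(δ) = {R : ψ(δ, A ∩ δ, R)}` is not changed by forcing with posets preserving
stationary subsets of `ω₁`: for every `δ < ω₁`, a relation in `ℰ(δ)` is forced to be in the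
family computed in the extension, and every member of the family computed in the extension is
a member of `ℰ(δ)`. -/
def Frozen (ψ : Fm) (A : Set Om) : Prop :=
  ∀ (P : Type) [Preorder P], StatPres P → ∀ δ : Om,
    (∀ R : Om → ℕ → Prop, Bdd R → Holds ψ δ (initA A δ) R →
      ∀ p : P, p ∈ FHolds P ψ δ (chkR (initA A δ)) (chkR R)) ∧
    ∀ (N : Om → ℕ → Set P) (p : P), p ∈ fbdd N → p ∈ FHolds P ψ δ (chkR (initA A δ)) N →
      p ∈ fex fun R : {R : Om → ℕ → Prop // Bdd R ∧ Holds ψ δ (initA A δ) R} =>
        fall fun γ : Om => fall fun n : ℕ =>
          fand (fimp (meets (N γ n)) (fground (R.1 γ n))) (fimp (fground (R.1 γ n)) (meets (N γ n)))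

/-- `R` is a ladder on `δ`: a strictly increasing sequence `ξ 0 < ξ 1 < ...` with supremum `δ`,
given as the set of the pairs `(ξ n, n)`. -/
def Ladder (δ : Om) (R : Om → ℕ → Prop) : Prop :=
  ∃ ξ : ℕ → Om, StrictMono ξ ∧ (∀ n, ξ n < δ) ∧ (∀ γ < δ, ∃ n, γ < ξ n) ∧
    ∀ γ n, R γ n ↔ γ = ξ n

/-- The set `{γ : R γ 0}` is a cofinal subset of `δ` which is almost contained in `C`. -/
def AlmostIn (C : Set Om) (δ : Om) (R : Om → ℕ → Prop) : Prop :=
  (∀ γ, R γ 0 → γ < δ) ∧ (∀ γ < δ, ∃ ξ, γ < ξ ∧ R ξ 0) ∧ ∃ η < δ, ∀ γ, η ≤ γ → R γ 0 → γ ∈ C

end Pool.Agent.Helper97.LC
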