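import Mathlib
import Pool.Agent.Helper97_LC.Lang

/-! # General facts about the forcing relation -/

set_option autoImplicit false

namespace Pool.Agent.Helper97.LC

open Pool.Agent.Helper669.Forcing

/-! ### Derived connectives -/

/-- implication -/
def Fm.imp (φ ψ : Fm) : Fm := .neg (.and φ (.neg ψ))
/-- disjunction -/
def Fm.or (φ ψ : Fm) : Fm := .neg (.and (.neg φ) (.neg ψ))
/-- equivalence -/
def Fm.iff (φ ψ : Fm) : Fm := .and (.imp φ ψ) (.imp ψ φ)
/-- there is a number -/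
def Fm.exN (i : ℕ) (φ : Fm) : Fm := .neg (.allN i (.neg φ))
/-- there is an ordinal -/
def Fm.exO (i : ℕ) (φ : Fm) : Fm := .neg (.allO i (.neg φ))
/-- there is a set of numbers -/
def Fm.exS (i : ℕ) (φ : Fm) : Fm := .neg (.allS i (.neg φ))
/-- there is a relation -/
def Fm.exR (i : ℕ) (φ : Fm) : Fm := .neg (.allR i (.neg φ))

abbrev VV := Val (ℕ → Prop) (Om → ℕ → Prop)
abbrev FV (P : Type) := Val (ℕ → Set P) (Om → ℕ → Set P)

section Sat

variable {φ ψ : Fm} {v : VV}

theorem sat_imp : Sat (.imp φ ψ) v ↔ (Sat φ v → Sat ψ v) := by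
  simp only [Fm.imp, Sat, not_and, not_not]
theorem sat_or : Sat (.or φ ψ) v ↔ (Sat φ v ∨ Sat ψ v) := by
  simp only [Fm.or, Sat, not_and_or, not_not]
theorem sat_iff : Sat (.iff φ ψ) v ↔ (Sat φ v ↔ Sat ψ v) := by
  simp only [Fm.iff, Sat, sat_imp]
  exact iff_iff_implies_and_implies.symm
theorem sat_exN {i : ℕ} : Sat (.exN i φ) v ↔ ∃ k, Sat φ (v.setN i k) := by
  simp only [Fm.exN, Sat, not_forall, not_not]
theorem sat_exO {i : ℕ} : Sat (.exO i φ) v ↔ ∃ k, Sat φ (v.setO i k) := by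
  simp only [Fm.exO, Sat, not_forall, not_not]
theorem sat_exS {i : ℕ} : Sat (.exS i φ) v ↔ ∃ k, Sat φ (v.setS i k) := by
  simp only [Fm.exS, Sat, not_forall, not_not]
theorem sat_exR {i : ℕ} : Sat (.exR i φ) v ↔ ∃ X, Bdd X ∧ Sat φ (v.setR i X) := by
  simp only [Fm.exR, Sat, not_forall, not_not, exists_prop]
theorem sat_neg : Sat (.neg φ) v ↔ ¬ Sat φ v := Iff.rfl
theorem sat_and : Sat (.and φ ψ) v ↔ Sat φ v ∧ Sat ψ v := Iff.rfl
theorem sat_allN {i : ℕ} : Sat (.allN i φ) v ↔ ∀ k, Sat φ (v.setN i k) := Iff.rfl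
theorem sat_allO {i : ℕ} : Sat (.allO i φ) v ↔ ∀ k, Sat φ (v.setO i k) := Iff.rfl
theorem sat_allS {i : ℕ} : Sat (.allS i φ) v ↔ ∀ k, Sat φ (v.setS i k) := Iff.rfl
theorem sat_allR {i : ℕ} : Sat (.allR i φ) v ↔ ∀ X, Bdd X → Sat φ (v.setR i X) := Iff.rfl

end Sat

section

variable {P : Type} [Preorder P]

/-! ### Regularity -/

/-- A set containing every condition below which it is dense. -/
def Reg (φ : Set P) : Prop := ∀ p, (∀ q ≤ p, ∃ r ≤ q, r ∈ φ) → p ∈ φ

theorem reg_fnot {φ : Set P} (h : Down φ) : Reg (fnot φ) := by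
  intro p hp q hq hq'
  obtain ⟨r, hr, hr'⟩ := hp q hq
  exact hr' r le_rfl (h q hq' r hr)

omit [Preorder P] in
theorem down_of_eq [Preorder P] {φ ψ : Set P} (h : φ = ψ) (h' : Down φ) : Down ψ := h ▸ h'

theorem reg_fand {φ ψ : Set P} (h : Reg φ) (h' : Reg ψ) : Reg (fand φ ψ) := by
  intro p hp
  exact ⟨h p fun q hq => (hp q hq).imp fun r hr => ⟨hr.1, hr.2.1⟩,
    h' p fun q hq => (hp q hq).imp fun r hr => ⟨hr.1, hr.2.2⟩⟩

theorem reg_fall {ι : Type*} {φ : ι → Set P} (h : ∀ i, Reg (φ i)) : Reg (fall φ) := by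
  intro p hp i
  exact h i p fun q hq => (hp q hq).imp fun r hr => ⟨hr.1, hr.2 i⟩

theorem reg_meets (N : Set P) : Reg (meets N) := by
  intro p hp q hq
  obtain ⟨r, hr, hr'⟩ := hp q hq
  obtain ⟨s, hs, t, ht, hst⟩ := hr' r le_rfl
  exact ⟨s, hs.trans hr, t, ht, hst⟩

theorem reg_fground (h : Prop) : Reg (fground (P := P) h) := by
  intro p hp
  obtain ⟨r, _, hr⟩ := hp p le_rfl
  exact hr

theorem reg_fimp {φ ψ : Set P} (h : Down φ) : Reg (fimp φ ψ) :=
  reg_fnot (down_fand h (down_fnot _))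

theorem down_fbdd (N : Om → ℕ → Set P) : Down (fbdd N) := down_fex _

theorem reg_fbdd (N : Om → ℕ → Set P) : Reg (fbdd N) :=
  reg_fnot (down_fall fun _ => down_fnot _)

theorem down_FSat (φ : Fm) : ∀ v : FV P, Down (FSat P φ v) := by
  induction φ with
  | eq s t => intro v; exact down_fground _
  | bit s t => intro v; exact down_fground _
  | lt i j => intro v; exact down_fground _
  | memS i t => intro v; exact down_meets _
  | memR i j t => intro v; exact down_meets _
  | neg φ ih => intro v; exact down_fnot _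
  | and φ ψ ih ih' => intro v; exact down_fand (ih v) (ih' v)
  | allN i φ ih => intro v; exact down_fall fun _ => ih _
  | allO i φ ih => intro v; exact down_fall fun _ => ih _
  | allS i φ ih => intro v; exact down_fall fun _ => ih _
  | allR i φ ih => intro v; exact down_fall fun _ => down_fimp _ _

theorem reg_FSat (φ : Fm) : ∀ v : FV P, Reg (FSat P φ v) := by
  induction φ with
  | eq s t => intro v; exact reg_fground _
  | bit s t => intro v; exact reg_fground _
  | lt i j => intro v; exact reg_fground _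
  | memS i t => intro v; exact reg_meets _
  | memR i j t => intro v; exact reg_meets _
  | neg φ ih => intro v; exact reg_fnot (down_FSat φ v)
  | and φ ψ ih ih' => intro v; exact reg_fand (ih v) (ih' v)
  | allN i φ ih => intro v; exact reg_fall fun _ => ih _
  | allO i φ ih => intro v; exact reg_fall fun _ => ih _
  | allS i φ ih => intro v; exact reg_fall fun _ => ih _
  | allR i φ ih => intro v; exact reg_fall fun _ => reg_fimp (down_fbdd _)

theorem mono {φ : Fm} {v : FV P} {p q : P} (h : p ∈ FSat P φ v) (hq : q ≤ p) : q ∈ FSat P φ v :=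
  down_FSat φ v p h q hq

theorem mem_fimp_reg {φ ψ : Set P} (h : Down φ) (h' : Reg ψ) {p : P} :
    p ∈ fimp φ ψ ↔ ∀ q ≤ p, q ∈ φ → q ∈ ψ := by
  rw [mem_fimp]
  constructor
  · intro hp q hq hqφ
    exact h' q fun r hr => hp r (hr.trans hq) (h q hqφ r hr)
  · intro hp q hq hqφ
    exact ⟨q, le_rfl, hp q hq hqφ⟩

theorem mem_neg {φ : Fm} {v : FV P} {p : P} :
    p ∈ FSat P (.neg φ) v ↔ ∀ q ≤ p, q ∉ FSat P φ v := Iff.rfl
theorem mem_and {φ ψ : Fm} {v : FV P} {p : P} :
    p ∈ FSat P (.and φ ψ) v ↔ p ∈ FSat P φ v ∧ p ∈ FSat P ψ v := Iff.rfl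
theorem mem_allN {φ : Fm} {v : FV P} {p : P} {i : ℕ} :
    p ∈ FSat P (.allN i φ) v ↔ ∀ k, p ∈ FSat P φ (v.setN i k) := Iff.rfl
theorem mem_allO {φ : Fm} {v : FV P} {p : P} {i : ℕ} :
    p ∈ FSat P (.allO i φ) v ↔ ∀ k, p ∈ FSat P φ (v.setO i k) := Iff.rfl
theorem mem_allS {φ : Fm} {v : FV P} {p : P} {i : ℕ} :
    p ∈ FSat P (.allS i φ) v ↔ ∀ k, p ∈ FSat P φ (v.setS i k) := Iff.rfl
theorem mem_allR {φ : Fm} {v : FV P} {p : P} {i : ℕ} :
    p ∈ FSat P (.allR i φ) v ↔ ∀ N, ∀ q ≤ p, q ∈ fbdd N → q ∈ FSat P φ (v.setR i N) := by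
  show (∀ N, p ∈ fimp (fbdd N) (FSat P φ (v.setR i N))) ↔ _
  simp only [mem_fimp_reg (down_fbdd _) (reg_FSat φ _)]
theorem mem_imp {φ ψ : Fm} {v : FV P} {p : P} :
    p ∈ FSat P (.imp φ ψ) v ↔ ∀ q ≤ p, q ∈ FSat P φ v → q ∈ FSat P ψ v :=
  mem_fimp_reg (down_FSat φ v) (reg_FSat ψ v)
theorem mem_iff {φ ψ : Fm} {v : FV P} {p : P} :
    p ∈ FSat P (.iff φ ψ) v ↔ ∀ q ≤ p, (q ∈ FSat P φ v ↔ q ∈ FSat P ψ v) := by
  simp only [Fm.iff, mem_and, mem_imp]
  constructor
  · intro h q hq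
    exact ⟨h.1 q hq, h.2 q hq⟩
  · intro h
    exact ⟨fun q hq => (h q hq).1, fun q hq => (h q hq).2⟩
theorem mem_or {φ ψ : Fm} {v : FV P} {p : P} :
    p ∈ FSat P (.or φ ψ) v ↔ ∀ q ≤ p, ∃ r ≤ q, r ∈ FSat P φ v ∨ r ∈ FSat P ψ v := by
  constructor
  · intro h q hq
    by_contra hcon
    push Not at hcon
    exact h q hq ⟨fun r hr h' => (hcon r hr).1 h', fun r hr h' => (hcon r hr).2 h'⟩
  · intro h q hq h'
    obtain ⟨r, hr, h1 | h1⟩ := h q hq
    · exact h'.1 r hr h1
    · exact h'.2 r hr h1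
theorem mem_exN {φ : Fm} {v : FV P} {p : P} {i : ℕ} :
    p ∈ FSat P (.exN i φ) v ↔ ∀ q ≤ p, ∃ r ≤ q, ∃ k, r ∈ FSat P φ (v.setN i k) :=
  mem_fex (φ := fun k => FSat P φ (v.setN i k))
theorem mem_exO {φ : Fm} {v : FV P} {p : P} {i : ℕ} :
    p ∈ FSat P (.exO i φ) v ↔ ∀ q ≤ p, ∃ r ≤ q, ∃ k, r ∈ FSat P φ (v.setO i k) :=
  mem_fex (φ := fun k => FSat P φ (v.setO i k))
theorem mem_exS {φ : Fm} {v : FV P} {p : P} {i : ℕ} :
    p ∈ FSat P (.exS i φ) v ↔ ∀ q ≤ p, ∃ r ≤ q, ∃ k, r ∈ FSat P φ (v.setS i k) :=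
  mem_fex (φ := fun k => FSat P φ (v.setS i k))
theorem mem_exR {φ : Fm} {v : FV P} {p : P} {i : ℕ} :
    p ∈ FSat P (.exR i φ) v ↔
      ∀ q ≤ p, ∃ r ≤ q, ∃ N, r ∈ fbdd N ∧ r ∈ FSat P φ (v.setR i N) := by
  show p ∈ FSat P (.neg (.allR i (.neg φ))) v ↔ _
  rw [mem_neg]
  simp only [mem_allR, mem_neg]
  constructor
  · intro h q hq
    have := h q hq
    push Not at this
    obtain ⟨N, r, hr, h1, s, hs, h2⟩ := this
    exact ⟨s, hs.trans hr, N, down_fbdd N r h1 s hs, h2⟩
  · intro h q hq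
    push Not
    obtain ⟨r, hr, N, h1, h2⟩ := h q hq
    exact ⟨N, r, hr, h1, r, le_rfl, h2⟩

/-! ### Names forced to be equal -/

/-- `p` forces that the sets named by `x` and `y` are equal. -/
def EqS (p : P) (x y : ℕ → Set P) : Prop := ∀ n, ∀ q ≤ p, (q ∈ meets (x n) ↔ q ∈ meets (y n))
/-- `p` forces that the relations named by `x` and `y` are equal. -/
def EqR (p : P) (x y : Om → ℕ → Set P) : Prop :=
  ∀ γ n, ∀ q ≤ p, (q ∈ meets (x γ n) ↔ q ∈ meets (y γ n))

/-! ### The variables of a formula -/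

/-- a strict bound of the variables of a term -/
def Tm.bd : Tm → ℕ
  | .var i => i + 1
  | .zero => 0
  | .succ t => t.bd
  | .add s t => max s.bd t.bd
  | .mul s t => max s.bd t.bd
  | .pair s t => max s.bd t.bd

/-- a strict bound of the variables of a formula -/
def Fm.bd : Fm → ℕ
  | .eq s t => max s.bd t.bd
  | .bit s t => max s.bd t.bd
  | .lt i j => max (i + 1) (j + 1)
  | .memS i t => max (i + 1) t.bd
  | .memR i j t => max (max (i + 1) (j + 1)) t.bd
  | .neg φ => φ.bd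
  | .and φ ψ => max φ.bd ψ.bd
  | .allN i φ => max (i + 1) φ.bd
  | .allO i φ => max (i + 1) φ.bd
  | .allS i φ => max (i + 1) φ.bd
  | .allR i φ => max (i + 1) φ.bd

/-- two assignments agree on the variables with index less than `K` -/
def AgreeV {S R : Type} (K : ℕ) (v w : Val S R) : Prop :=
  ∀ i < K, v.n i = w.n i ∧ v.o i = w.o i ∧ v.s i = w.s i ∧ v.r i = w.r i

theorem Tm.eval_congr {K : ℕ} {n m : ℕ → ℕ} (h : ∀ i < K, n i = m i) (t : Tm) (ht : t.bd ≤ K) :
    t.eval n = t.eval m := by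
  induction t with
  | var i => exact h i ht
  | zero => rfl
  | succ t ih => simp only [Tm.eval, ih ht]
  | add s t ih ih' =>
    simp only [Tm.bd, max_le_iff] at ht
    simp only [Tm.eval, ih ht.1, ih' ht.2]
  | mul s t ih ih' =>
    simp only [Tm.bd, max_le_iff] at ht
    simp only [Tm.eval, ih ht.1, ih' ht.2]
  | pair s t ih ih' =>
    simp only [Tm.bd, max_le_iff] at ht
    simp only [Tm.eval, ih ht.1, ih' ht.2]

section

variable {S R : Type}

theorem AgreeV.setN {K : ℕ} {v w : Val S R} (h : AgreeV K v w) (i k : ℕ) :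
    AgreeV K (v.setN i k) (w.setN i k) := by
  intro j hj
  refine ⟨?_, (h j hj).2⟩
  simp only [Val.setN, Function.update_apply, (h j hj).1]
theorem AgreeV.setO {K : ℕ} {v w : Val S R} (h : AgreeV K v w) (i : ℕ) (k : Om) :
    AgreeV K (v.setO i k) (w.setO i k) := by
  intro j hj
  refine ⟨(h j hj).1, ?_, (h j hj).2.2⟩
  simp only [Val.setO, Function.update_apply, (h j hj).2.1]
theorem AgreeV.setS {K : ℕ} {v w : Val S R} (h : AgreeV K v w) (i : ℕ) (k : S) :
    AgreeV K (v.setS i k) (w.setS i k) := by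
  intro j hj
  refine ⟨(h j hj).1, (h j hj).2.1, ?_, (h j hj).2.2.2⟩
  simp only [Val.setS, Function.update_apply, (h j hj).2.2.1]
theorem AgreeV.setR {K : ℕ} {v w : Val S R} (h : AgreeV K v w) (i : ℕ) (k : R) :
    AgreeV K (v.setR i k) (w.setR i k) := by
  intro j hj
  refine ⟨(h j hj).1, (h j hj).2.1, (h j hj).2.2.1, ?_⟩
  simp only [Val.setR, Function.update_apply, (h j hj).2.2.2]

end

theorem sat_congr {K : ℕ} (φ : Fm) (hφ : φ.bd ≤ K) : ∀ v w : VV, AgreeV K v w →
    (Sat φ v ↔ Sat φ w) := by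
  induction φ with
  | eq s t =>
    intro v w h
    simp only [Fm.bd, max_le_iff] at hφ
    simp only [Sat, Tm.eval_congr (fun i hi => (h i hi).1) s hφ.1,
      Tm.eval_congr (fun i hi => (h i hi).1) t hφ.2]
  | bit s t =>
    intro v w h
    simp only [Fm.bd, max_le_iff] at hφ
    simp only [Sat, Tm.eval_congr (fun i hi => (h i hi).1) s hφ.1,
      Tm.eval_congr (fun i hi => (h i hi).1) t hφ.2]
  | lt i j =>
    intro v w h
    simp only [Fm.bd, max_le_iff] at hφ
    simp only [Sat, (h i hφ.1).2.1, (h j hφ.2).2.1]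
  | memS i t =>
    intro v w h
    simp only [Fm.bd, max_le_iff] at hφ
    simp only [Sat, (h i hφ.1).2.2.1, Tm.eval_congr (fun i hi => (h i hi).1) t hφ.2]
  | memR i j t =>
    intro v w h
    simp only [Fm.bd, max_le_iff] at hφ
    simp only [Sat, (h i hφ.1.1).2.2.2, (h j hφ.1.2).2.1,
      Tm.eval_congr (fun i hi => (h i hi).1) t hφ.2]
  | neg φ ih => intro v w h; exact not_congr (ih hφ v w h)
  | and φ ψ ih ih' =>
    intro v w h
    simp only [Fm.bd, max_le_iff] at hφ
    exact and_congr (ih hφ.1 v w h) (ih' hφ.2 v w h)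
  | allN i φ ih =>
    intro v w h
    simp only [Fm.bd, max_le_iff] at hφ
    exact forall_congr' fun k => ih hφ.2 _ _ (h.setN i k)
  | allO i φ ih =>
    intro v w h
    simp only [Fm.bd, max_le_iff] at hφ
    exact forall_congr' fun k => ih hφ.2 _ _ (h.setO i k)
  | allS i φ ih =>
    intro v w h
    simp only [Fm.bd, max_le_iff] at hφ
    exact forall_congr' fun k => ih hφ.2 _ _ (h.setS i k)
  | allR i φ ih =>
    intro v w h
    simp only [Fm.bd, max_le_iff] at hφ
    exact forall_congr' fun k => forall_congr' fun _ => ih hφ.2 _ _ (h.setR i k)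

theorem EqS.refl (p : P) (x : ℕ → Set P) : EqS p x x := fun _ _ _ => Iff.rfl
theorem EqR.refl (p : P) (x : Om → ℕ → Set P) : EqR p x x := fun _ _ _ _ => Iff.rfl
theorem EqS.symm {p : P} {x y : ℕ → Set P} (h : EqS p x y) : EqS p y x :=
  fun n q hq => (h n q hq).symm
theorem EqR.symm {p : P} {x y : Om → ℕ → Set P} (h : EqR p x y) : EqR p y x :=
  fun g n q hq => (h g n q hq).symm
theorem EqS.trans {p : P} {x y z : ℕ → Set P} (h : EqS p x y) (h' : EqS p y z) : EqS p x z :=
  fun n q hq => (h n q hq).trans (h' n q hq)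
theorem EqR.trans {p : P} {x y z : Om → ℕ → Set P} (h : EqR p x y) (h' : EqR p y z) : EqR p x z :=
  fun g n q hq => (h g n q hq).trans (h' g n q hq)
theorem EqS.mono {p q : P} {x y : ℕ → Set P} (h : EqS p x y) (hq : q ≤ p) : EqS q x y :=
  fun n r hr => h n r (hr.trans hq)
theorem EqR.mono {p q : P} {x y : Om → ℕ → Set P} (h : EqR p x y) (hq : q ≤ p) : EqR q x y :=
  fun g n r hr => h g n r (hr.trans hq)

/-- forced equality of assignments, for the variables with index less than `K` -/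
def EqV (K : ℕ) (p : P) (v w : FV P) : Prop :=
  ∀ i < K, v.n i = w.n i ∧ v.o i = w.o i ∧ EqS p (v.s i) (w.s i) ∧ EqR p (v.r i) (w.r i)

theorem EqV.refl (K : ℕ) (p : P) (v : FV P) : EqV K p v v :=
  fun _ _ => ⟨rfl, rfl, EqS.refl _ _, EqR.refl _ _⟩
theorem EqV.symm {K : ℕ} {p : P} {v w : FV P} (h : EqV K p v w) : EqV K p w v :=
  fun i hi => ⟨(h i hi).1.symm, (h i hi).2.1.symm, (h i hi).2.2.1.symm, (h i hi).2.2.2.symm⟩
theorem EqV.mono {K : ℕ} {p q : P} {v w : FV P} (h : EqV K p v w) (hq : q ≤ p) : EqV K q v w :=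
  fun i hi => ⟨(h i hi).1, (h i hi).2.1, (h i hi).2.2.1.mono hq, (h i hi).2.2.2.mono hq⟩
theorem EqV.le {K L : ℕ} {p : P} {v w : FV P} (h : EqV K p v w) (hL : L ≤ K) : EqV L p v w :=
  fun i hi => h i (hi.trans_le hL)
theorem EqV.setN {K : ℕ} {p : P} {v w : FV P} (h : EqV K p v w) (i k : ℕ) :
    EqV K p (v.setN i k) (w.setN i k) := by
  intro j hj
  refine ⟨?_, (h j hj).2⟩
  simp only [Val.setN, Function.update_apply, (h j hj).1]
theorem EqV.setO {K : ℕ} {p : P} {v w : FV P} (h : EqV K p v w) (i : ℕ) (k : Om) :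
    EqV K p (v.setO i k) (w.setO i k) := by
  intro j hj
  refine ⟨(h j hj).1, ?_, (h j hj).2.2⟩
  simp only [Val.setO, Function.update_apply, (h j hj).2.1]
theorem EqV.setS {K : ℕ} {p : P} {v w : FV P} (h : EqV K p v w) (i : ℕ) {x y : ℕ → Set P}
    (hx : EqS p x y) : EqV K p (v.setS i x) (w.setS i y) := by
  intro j hj
  refine ⟨(h j hj).1, (h j hj).2.1, ?_, (h j hj).2.2.2⟩
  simp only [Val.setS]
  by_cases hji : j = i
  · subst hji; simpa only [Function.update_self] using hx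
  · simpa only [Function.update_of_ne hji] using (h j hj).2.2.1
theorem EqV.setR {K : ℕ} {p : P} {v w : FV P} (h : EqV K p v w) (i : ℕ) {x y : Om → ℕ → Set P}
    (hx : EqR p x y) : EqV K p (v.setR i x) (w.setR i y) := by
  intro j hj
  refine ⟨(h j hj).1, (h j hj).2.1, (h j hj).2.2.1, ?_⟩
  simp only [Val.setR]
  by_cases hji : j = i
  · subst hji; simpa only [Function.update_self] using hx
  · simpa only [Function.update_of_ne hji] using (h j hj).2.2.2

/-- A formula has the same truth value for assignments which are forced to be equal. -/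
theorem leibniz {K : ℕ} (φ : Fm) (hφ : φ.bd ≤ K) : ∀ (p : P) (v w : FV P), EqV K p v w →
    (p ∈ FSat P φ v ↔ p ∈ FSat P φ w) := by
  induction φ with
  | eq s t =>
    intro p v w h
    simp only [Fm.bd, max_le_iff] at hφ
    simp only [FSat, Tm.eval_congr (fun i hi => (h i hi).1) s hφ.1,
      Tm.eval_congr (fun i hi => (h i hi).1) t hφ.2]
  | bit s t =>
    intro p v w h
    simp only [Fm.bd, max_le_iff] at hφ
    simp only [FSat, Tm.eval_congr (fun i hi => (h i hi).1) s hφ.1,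
      Tm.eval_congr (fun i hi => (h i hi).1) t hφ.2]
  | lt i j =>
    intro p v w h
    simp only [Fm.bd, max_le_iff] at hφ
    simp only [FSat, (h i hφ.1).2.1, (h j hφ.2).2.1]
  | memS i t =>
    intro p v w h
    simp only [Fm.bd, max_le_iff] at hφ
    simp only [FSat, Tm.eval_congr (fun i hi => (h i hi).1) t hφ.2]
    exact (h i hφ.1).2.2.1 _ p le_rfl
  | memR i j t =>
    intro p v w h
    simp only [Fm.bd, max_le_iff] at hφ
    simp only [FSat, (h j hφ.1.2).2.1, Tm.eval_congr (fun i hi => (h i hi).1) t hφ.2]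
    exact (h i hφ.1.1).2.2.2 _ _ p le_rfl
  | neg φ ih =>
    intro p v w h
    simp only [mem_neg]
    exact forall_congr' fun q => forall_congr' fun hq => not_congr (ih hφ q v w (h.mono hq))
  | and φ ψ ih ih' =>
    intro p v w h
    simp only [Fm.bd, max_le_iff] at hφ
    simp only [mem_and, ih hφ.1 p v w h, ih' hφ.2 p v w h]
  | allN i φ ih =>
    intro p v w h
    simp only [Fm.bd, max_le_iff] at hφ
    exact forall_congr' fun k => ih hφ.2 p _ _ (h.setN i k)
  | allO i φ ih =>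
    intro p v w h
    simp only [Fm.bd, max_le_iff] at hφ
    exact forall_congr' fun k => ih hφ.2 p _ _ (h.setO i k)
  | allS i φ ih =>
    intro p v w h
    simp only [Fm.bd, max_le_iff] at hφ
    exact forall_congr' fun k => ih hφ.2 p _ _ (h.setS i (EqS.refl p k))
  | allR i φ ih =>
    intro p v w h
    simp only [Fm.bd, max_le_iff] at hφ
    simp only [mem_allR]
    exact forall_congr' fun N => forall_congr' fun q => forall_congr' fun hq =>
      forall_congr' fun _ => ih hφ.2 q _ _ ((h.mono hq).setR i (EqR.refl q N))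

/-! ### Absoluteness of first order statements about ground model objects -/

/-- Formulas quantifying only over numbers and ordinals, whose free set and relation variables
are among the given ones. -/
def FO (Sok Rok : ℕ → Prop) : Fm → Prop
  | .eq _ _ => True
  | .bit _ _ => True
  | .lt _ _ => True
  | .memS i _ => Sok i
  | .memR i _ _ => Rok i
  | .neg φ => FO Sok Rok φ
  | .and φ ψ => FO Sok Rok φ ∧ FO Sok Rok ψ
  | .allN _ φ => FO Sok Rok φ
  | .allO _ φ => FO Sok Rok φ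
  | .allS _ _ => False
  | .allR _ _ => False

theorem meets_chk (h : Prop) (p : P) : p ∈ meets {_q : P | h} ↔ h := by
  constructor
  · intro hp
    obtain ⟨r, _, s, hs, _⟩ := hp p le_rfl
    exact hs
  · intro hh q _
    exact ⟨q, le_rfl, q, hh, le_rfl⟩

theorem fo_abs {Sok Rok : ℕ → Prop} (φ : Fm) (hφ : FO Sok Rok φ) : ∀ (v : VV) (w : FV P),
    w.n = v.n → w.o = v.o → (∀ i, Sok i → w.s i = chkS (v.s i)) →
    (∀ i, Rok i → w.r i = chkR (v.r i)) → ∀ p, (p ∈ FSat P φ w ↔ Sat φ v) := by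
  induction φ with
  | eq s t => intro v w hn ho hs hr p; simp only [FSat, hn, Sat, mem_fground]
  | bit s t => intro v w hn ho hs hr p; simp only [FSat, hn, Sat, mem_fground]
  | lt i j => intro v w hn ho hs hr p; simp only [FSat, ho, Sat, mem_fground]
  | memS i t =>
    intro v w hn ho hs hr p
    simp only [FSat, hn, Sat, hs i hφ, chkS]
    exact meets_chk _ _
  | memR i j t =>
    intro v w hn ho hs hr p
    simp only [FSat, hn, ho, Sat, hr i hφ, chkR]
    exact meets_chk _ _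
  | neg φ ih =>
    intro v w hn ho hs hr p
    rw [mem_neg, sat_neg]
    simp only [ih hφ v w hn ho hs hr]
    exact ⟨fun h => h p le_rfl, fun h _ _ => h⟩
  | and φ ψ ih ih' =>
    intro v w hn ho hs hr p
    rw [mem_and, sat_and, ih hφ.1 v w hn ho hs hr, ih' hφ.2 v w hn ho hs hr]
  | allN i φ ih =>
    intro v w hn ho hs hr p
    rw [mem_allN, sat_allN]
    exact forall_congr' fun k => ih hφ (v.setN i k) (w.setN i k)
      (by simp only [Val.setN, hn]) (by exact ho) (by exact hs) (by exact hr) p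
  | allO i φ ih =>
    intro v w hn ho hs hr p
    rw [mem_allO, sat_allO]
    exact forall_congr' fun k => ih hφ (v.setO i k) (w.setO i k)
      (by exact hn) (by simp only [Val.setO, ho]) (by exact hs) (by exact hr) p
  | allS i φ ih => exact hφ.elim
  | allR i φ ih => exact hφ.elim

end

end Pool.Agent.Helper97.LC
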