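import Mathlib
import Pool.Agent.Helper97_LC.Lang

/-! # Countable ordinals, clubs and stationary sets -/

set_option autoImplicit false

namespace Pool.Agent.Helper97.LC

theorem om_Iio (α : Om) : (Set.Iio α).Countable := by
  rw [Cardinal.countable_iff_lt_aleph_one]
  exact Cardinal.mk_Iio_ord_toType α

theorem om_unc : ¬ (Set.univ : Set Om).Countable := by
  rw [Cardinal.countable_iff_lt_aleph_one, Cardinal.mk_univ, Cardinal.mk_ord_toType]
  exact lt_irrefl _

theorem om_bdd {S : Set Om} (hS : S.Countable) : ∃ δ, ∀ x ∈ S, x < δ := by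
  by_contra h
  push Not at h
  apply om_unc
  have : (⋃ x ∈ S, (Set.Iio x ∪ {x})).Countable :=
    hS.biUnion fun x _ => (om_Iio x).union (Set.countable_singleton x)
  refine this.mono fun y _ => ?_
  obtain ⟨x, hx, hyx⟩ := h y
  refine Set.mem_biUnion hx ?_
  rcases hyx.lt_or_eq with h' | h'
  · exact Or.inl h'
  · exact Or.inr h'

theorem om_gt (γ : Om) : ∃ δ, γ < δ := by
  obtain ⟨δ, h⟩ := om_bdd (Set.countable_singleton γ)
  exact ⟨δ, h γ rfl⟩

theorem om_bdd_fun {ι : Type*} [Countable ι] (f : ι → Om) : ∃ δ, ∀ i, f i < δ := by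
  obtain ⟨δ, h⟩ := om_bdd (Set.countable_range f)
  exact ⟨δ, fun i => h _ ⟨i, rfl⟩⟩

/-- There are arbitrarily large closure points. -/
theorem exists_closed_gt (f : Om → Om) (β : Om) : ∃ δ, β < δ ∧ ClosedUnder f δ := by
  have hb : ∀ a : Om, ∃ β, a < β ∧ ∀ γ ≤ a, f γ < β := by
    intro a
    have hc : (insert a (f '' (Set.Iio a ∪ {a}))).Countable :=
      (((om_Iio a).union (Set.countable_singleton a)).image f).insert a
    obtain ⟨β, hβ⟩ := om_bdd hc
    refine ⟨β, hβ a (Set.mem_insert _ _), fun γ hγ => hβ _ (Set.mem_insert_of_mem _ ⟨γ, ?_, rfl⟩)⟩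
    rcases hγ.lt_or_eq with h | h
    · exact Or.inl h
    · exact Or.inr h
  choose s hs1 hs2 using hb
  let a : ℕ → Om := fun n => Nat.rec β (fun _ x => s x) n
  have ha : ∀ n, a (n + 1) = s (a n) := fun n => rfl
  have hne : {δ | ∀ n, a n < δ}.Nonempty := om_bdd_fun a
  have h1 : ∀ n, a n < (wellFounded_lt (α := Om)).min {δ | ∀ n, a n < δ} hne :=
    (wellFounded_lt (α := Om)).min_mem {δ | ∀ n, a n < δ} hne
  refine ⟨(wellFounded_lt (α := Om)).min {δ | ∀ n, a n < δ} hne, h1 0, ⟨_, h1 0⟩, fun γ hγ => ?_⟩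
  have h2 : ∃ n, γ ≤ a n := by
    by_contra hcon
    push Not at hcon
    exact (wellFounded_lt (α := Om)).not_lt_min {δ | ∀ n, a n < δ} hcon hγ
  obtain ⟨n, hn⟩ := h2
  refine (hs2 (a n) γ hn).trans ?_
  rw [← ha]
  exact h1 (n + 1)

theorem exists_closed (f : Om → Om) : ∃ δ, ClosedUnder f δ := by
  obtain ⟨δ, -, h⟩ := exists_closed_gt f default
  exact ⟨δ, h⟩

/-- The closure points of a function form a closed unbounded set. -/
theorem isClub_closed (f : Om → Om) : IsClub {δ | ClosedUnder f δ} := by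
  refine ⟨?_, fun γ => ?_⟩
  · intro t ht ht0 _ x hx
    obtain ⟨a, ha⟩ := ht0
    refine ⟨(ht ha).1.imp fun γ hγ => hγ.trans_le (hx.1 ha), fun γ hγ => ?_⟩
    obtain ⟨b, hb, hγb⟩ : ∃ b ∈ t, γ < b := by
      by_contra hcon
      push Not at hcon
      exact absurd (hx.2 hcon) (not_le.mpr hγ)
    exact ((ht hb).2 γ hγb).trans_le (hx.1 hb)
  · obtain ⟨δ, h1, h2⟩ := exists_closed_gt f γ
    exact ⟨δ, h2, h1.le⟩

/-- Every closed unbounded set contains the closure points of some function. -/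
theorem exists_closed_sub {C : Set Om} (hC : IsClub C) :
    ∃ f : Om → Om, ∀ δ, ClosedUnder f δ → δ ∈ C := by
  have h : ∀ γ : Om, ∃ δ ∈ C, γ < δ := by
    intro γ
    obtain ⟨β, hβ⟩ := om_gt γ
    obtain ⟨δ, hδ, hβδ⟩ := hC.isCofinal β
    exact ⟨δ, hδ, hβ.trans_le hβδ⟩
  choose f hf1 hf2 using h
  refine ⟨f, fun δ hδ => ?_⟩
  obtain ⟨⟨γ, hγ⟩, hδ2⟩ := hδ
  refine hC.isLUB_mem (t := f '' Set.Iio δ) ?_ ⟨_, γ, hγ, rfl⟩ ⟨?_, ?_⟩
  · rintro _ ⟨ξ, _, rfl⟩
    exact hf1 ξ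
  · rintro _ ⟨ξ, hξ, rfl⟩
    exact (hδ2 ξ hξ).le
  · intro u hu
    by_contra hlt
    push Not at hlt
    exact absurd (hu ⟨u, hlt, rfl⟩) (not_le.mpr (hf2 u))

/-- A set is stationary iff it contains a nonzero closure point of every function. -/
theorem stationary_iff {S : Set Om} :
    IsStationary S ↔ ∀ f : Om → Om, ∃ δ ∈ S, ClosedUnder f δ := by
  constructor
  · intro h f
    exact h (isClub_closed f)
  · intro h C hC
    obtain ⟨f, hf⟩ := exists_closed_sub hC
    obtain ⟨δ, h1, h2⟩ := h f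
    exact ⟨δ, h1, hf δ h2⟩

theorem stationary_univ : IsStationary (Set.univ : Set Om) := by
  rw [stationary_iff]
  intro f
  obtain ⟨δ, hδ⟩ := exists_closed f
  exact ⟨δ, trivial, hδ⟩

end Pool.Agent.Helper97.LC
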