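import Mathlib
import Pool.Agent.Helper97_LC.Force
import Pool.Agent.Helper97_LC.Om
import Pool.Agent.H631R2.Cohen

/-! # The coding sentence implies the continuum hypothesis -/

set_option autoImplicit false

namespace Pool.Agent.Helper97.LC

open Pool.Agent.Helper669.Forcing

/-! ### The sentence -/

/-- `h` is the sequence decoded from `y`, of length `δ` -/
def decF (K Z : ℕ) (χ Fi : Fm) : Fm :=
  .and (.allO (Z + 1) (.allN K (.imp (.memR (Z + 1) (Z + 1) (.var K)) (.lt (Z + 1) Z))))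
    (.allO 0 (.imp (.lt 0 Z) (.exR K (.and
      (.allO (Z + 1) (.allN K (.iff (.memR K (Z + 1) (.var K))
        (.and (.lt (Z + 1) 0) (.memR (Z + 1) (Z + 1) (.var K))))))
      (.and (.exS K χ) (.allS K (.imp χ (.allN K (.iff (.memR (Z + 1) 0 (.var K)) Fi)))))))))

/-- there is `y` such that every set of numbers is computed from `y` and a term of a sequence
decoded from `y` -/
def thetaF (K Z : ℕ) (χ Fi Ps : Fm) : Fm :=
  .exS Z (.allS (Z + 2) (.exO Z (.exR (Z + 1) (.and (decF K Z χ Fi)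
    (.exO (Z + 1) (.and (.lt (Z + 1) Z) (.allN K (.iff (.memS (Z + 2) (.var K)) Ps))))))))

section

variable {P : Type} [Preorder P] {K Z : ℕ} {χ Fi Ps : Fm}

theorem dec_lt (hK : 0 < K) (hZ : K < Z) {w : FV P} {r : P} (h : r ∈ FSat P (decF K Z χ Fi) w)
    {γ : Om} {n : ℕ} {q : P} (hq : q ≤ r) (hm : q ∈ meets (w.r (Z + 1) γ n)) : γ < w.o Z := by
  have h1 := mem_allN.mp (mem_allO.mp (mem_and.mp h).1 γ) n
  have h2 := mem_imp.mp h1 q hq
  simp (disch := omega) only [FSat, Val.setN, Val.setO, Function.update_self,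
    Function.update_of_ne, Tm.eval, mem_fground, ne_eq] at h2
  exact h2 hm

theorem dec_get (hK : 0 < K) (hZ : K < Z) {w : FV P} {r : P} (h : r ∈ FSat P (decF K Z χ Fi) w)
    {γ : Om} (hγ : γ < w.o Z) {q : P} (hq : q ≤ r) :
    ∃ q' ≤ q, ∃ g : Om → ℕ → Set P,
      (∀ ξ n, ∀ s ≤ q', (s ∈ meets (g ξ n) ↔ (ξ < γ ∧ s ∈ meets (w.r (Z + 1) ξ n)))) ∧
      (∀ s ≤ q', ∃ t ≤ s, ∃ b, t ∈ FSat P χ (((w.setO 0 γ).setR K g).setS K b)) ∧
      ∀ b, ∀ s ≤ q', s ∈ FSat P χ (((w.setO 0 γ).setR K g).setS K b) → ∀ n,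
        (s ∈ meets (w.r (Z + 1) γ n) ↔
          s ∈ FSat P Fi ((((w.setO 0 γ).setR K g).setS K b).setN K n)) := by
  have h1 := mem_imp.mp (mem_allO.mp (mem_and.mp h).2 γ) r le_rfl (by
    simp (disch := omega) only [FSat, Val.setO, Function.update_self,
      Function.update_of_ne, mem_fground, ne_eq]
    exact hγ)
  obtain ⟨q', hq', g, -, h2⟩ := mem_exR.mp h1 q hq
  obtain ⟨h3, h4, h5⟩ := h2
  refine ⟨q', hq', g, ?_, ?_, ?_⟩
  · intro ξ n s hs
    have h6 := mem_iff.mp (mem_allN.mp (mem_allO.mp h3 ξ) n) s hs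
    simp (disch := omega) only [FSat, Val.setN, Val.setO, Val.setR, Function.update_self,
      Function.update_of_ne, Tm.eval, mem_fground, ne_eq, mem_fand] at h6
    exact h6
  · intro s hs
    exact mem_exS.mp h4 s hs
  · intro b s hs hsχ n
    have h6 := mem_iff.mp (mem_allN.mp (mem_imp.mp (mem_allS.mp h5 b) s hs hsχ) n) s le_rfl
    simp (disch := omega) only [FSat, Val.setN, Val.setO, Val.setR, Val.setS, Function.update_self,
      Function.update_of_ne, Tm.eval, ne_eq] at h6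
    exact h6

/-- Two sequences decoded from the same set are equal. -/
theorem dec_uniq (hK : 0 < K) (hZ : K < Z) (hχ : χ.bd ≤ Z) (hFi : Fi.bd ≤ Z + 1) {r : P} :
    ∀ w1 w2 : FV P, EqV (Z + 1) r w1 w2 → r ∈ FSat P (decF K Z χ Fi) w1 →
    r ∈ FSat P (decF K Z χ Fi) w2 → EqR r (w1.r (Z + 1)) (w2.r (Z + 1)) := by
  suffices main : ∀ γ : Om, ∀ w1 w2 : FV P, EqV (Z + 1) r w1 w2 →
      r ∈ FSat P (decF K Z χ Fi) w1 → r ∈ FSat P (decF K Z χ Fi) w2 →
      ∀ n, ∀ q ≤ r, (q ∈ meets (w1.r (Z + 1) γ n) → q ∈ meets (w2.r (Z + 1) γ n)) by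
    intro w1 w2 h h1 h2 γ n q hq
    exact ⟨main γ w1 w2 h h1 h2 n q hq, main γ w2 w1 h.symm h2 h1 n q hq⟩
  intro γ
  induction γ using WellFoundedLT.induction with
  | _ γ ih =>
  intro w1 w2 h h1 h2 n q hq hqm
  have hγ := dec_lt hK hZ h1 hq hqm
  have hγ2 : γ < w2.o Z := by
    rw [← (h Z (Nat.lt_succ_self Z)).2.1]
    exact hγ
  refine reg_meets _ q fun q' hq' => ?_
  obtain ⟨r1, hr1, g1, a1, b1, c1⟩ := dec_get hK hZ h1 hγ (hq'.trans hq)
  obtain ⟨r2, hr2, g2, a2, b2, c2⟩ := dec_get hK hZ h2 hγ2 ((hr1.trans hq').trans hq)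
  have hg : EqR r2 g1 g2 := by
    intro ξ m s hs
    rw [a1 ξ m s (hs.trans hr2), a2 ξ m s hs]
    refine and_congr_right fun hξ => ?_
    have hsr : s ≤ r := ((hs.trans hr2).trans (hr1.trans hq')).trans hq
    exact ⟨ih ξ hξ w1 w2 h h1 h2 m s hsr, ih ξ hξ w2 w1 h.symm h2 h1 m s hsr⟩
  obtain ⟨r3, hr3, b, hb⟩ := b1 r2 hr2
  have hE : EqV (Z + 1) r3 (((w1.setO 0 γ).setR K g1).setS K b)
      (((w2.setO 0 γ).setR K g2).setS K b) := by
    refine EqV.setS (EqV.setR (EqV.setO ?_ 0 γ) K (hg.mono hr3)) K (EqS.refl _ _)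
    exact h.mono (((hr3.trans hr2).trans (hr1.trans hq')).trans hq)
  have hb2 : r3 ∈ FSat P χ (((w2.setO 0 γ).setR K g2).setS K b) :=
    (leibniz χ hχ r3 _ _ (hE.le (Nat.le_succ Z))).mp hb
  refine ⟨r3, (hr3.trans hr2).trans hr1, ?_⟩
  rw [c2 b r3 hr3 hb2 n, ← leibniz Fi hFi r3 _ _ (hE.setN K n),
    ← c1 b r3 (hr3.trans hr2) hb n]
  exact down_meets _ q hqm r3 ((hr3.trans hr2).trans (hr1.trans hq'))

end

/-! ### Posets with the countable chain condition -/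

section

variable {P : Type} [Preorder P]

theorem statPres_of_ccc
    (hccc : ∀ W : Set P, (∀ p ∈ W, ∀ q ∈ W, p ≠ q → ¬ ∃ r, r ≤ p ∧ r ≤ q) → W.Countable) :
    StatPres P := by
  intro S hS F p hp
  rw [mem_fex]
  intro q hq
  have hpF := down_IsFun F p hp q hq
  obtain ⟨htot, hfun⟩ := hpF
  have hfun' : ∀ γ η η', ∀ r ≤ q, r ∈ meets (F γ η) → r ∈ meets (F γ η') → η = η' := by
    intro γ η η' r hr h1 h2
    obtain ⟨_, _, h3⟩ := mem_fimp.mp (hfun γ η η') r hr ⟨h1, h2⟩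
    exact h3
  have hcount : ∀ γ, {η | ∃ r ≤ q, r ∈ meets (F γ η)}.Countable := by
    intro γ
    have hch : ∀ η : {η | ∃ r ≤ q, r ∈ meets (F γ η)}, ∃ r, r ≤ q ∧ r ∈ meets (F γ η.1) :=
      fun η => η.2
    choose w hw1 hw2 using hch
    have hinc : ∀ η η', η ≠ η' → ¬ ∃ r, r ≤ w η ∧ r ≤ w η' := by
      rintro η η' hne ⟨r, hr, hr'⟩
      exact hne (Subtype.ext (hfun' γ _ _ r (hr.trans (hw1 η)) (down_meets _ _ (hw2 η) r hr)
        (down_meets _ _ (hw2 η') r hr')))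
    have hinj : Function.Injective w := by
      intro η η' h
      by_contra hne
      exact hinc η η' hne ⟨w η, le_rfl, h.le⟩
    have h1 : (Set.range w).Countable := by
      refine hccc _ ?_
      rintro _ ⟨η, rfl⟩ _ ⟨η', rfl⟩ hne
      exact hinc η η' fun h => hne (by rw [h])
    have h2 : Countable {η | ∃ r ≤ q, r ∈ meets (F γ η)} := by
      have : Countable (Set.range w) := h1.to_subtype
      exact Countable.of_equiv _ (Equiv.ofInjective w hinj).symm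
    exact h2.to_set
  have hb : ∀ γ, ∃ δ, ∀ η, (∃ r ≤ q, r ∈ meets (F γ η)) → η < δ := by
    intro γ
    obtain ⟨δ, h⟩ := om_bdd (hcount γ)
    exact ⟨δ, fun η hη => h η hη⟩
  choose f hf using hb
  obtain ⟨δ, hδS, hδ0, hδ⟩ := stationary_iff.mp hS f
  refine ⟨q, le_rfl, δ, ⟨hδS, hδ0⟩, ?_⟩
  intro γ hγ
  rw [mem_fex]
  intro r hr
  obtain ⟨s, hs, η, hη⟩ := mem_fex.mp (htot γ) r hr
  exact ⟨s, hs, η, (hf γ η ⟨s, hs.trans hr, hη⟩).trans (hδ γ hγ), hη⟩

end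

/-! ### Many Cohen reals -/

open Pool.Agent.H631R2 in
/-- The sentence is not forced when `ℵ₂` Cohen reals are added. -/
theorem cohen_not_theta {K Z : ℕ} {χ Fi Ps : Fm} (hK : 0 < K) (hZ : K < Z) (hχ : χ.bd ≤ Z)
    (hFi : Fi.bd ≤ Z + 1) (hPs : Ps.bd ≤ Z + 2) {I : Type}
    (hI : ¬ Cardinal.mk I ≤ Cardinal.aleph 1) (v : FV (Cond (I × ℕ)))
    (hall : ∀ p, p ∈ FSat (Cond (I × ℕ)) (thetaF K Z χ Fi Ps) v) : False := by
  classical
  let p0 : Cond (I × ℕ) := ⟨∅, by simp⟩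
  obtain ⟨q0, -, y, hy⟩ := mem_exS.mp (hall p0) p0 le_rfl
  let c : I → ℕ → Set (Cond (I × ℕ)) := fun i n => {p | ((i, n), true) ∈ p.s}
  have hstep : ∀ i : I, ∃ (s : Cond (I × ℕ)) (δ : Om) (h : Om → ℕ → Set (Cond (I × ℕ))) (γ : Om),
      s ∈ FSat (Cond (I × ℕ)) (decF K Z χ Fi)
        ((((v.setS Z y).setS (Z + 2) (c i)).setO Z δ).setR (Z + 1) h) ∧
      ∀ n, ∀ t ≤ s, (t ∈ meets (c i n) ↔ t ∈ FSat (Cond (I × ℕ)) Ps (((((((v.setS Z y).setS (Z + 2) (c i)).setO Z δ).setR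
        (Z + 1) h).setO (Z + 1) γ)).setN K n)) := by
    intro i
    obtain ⟨q1, hq1, δ, h1⟩ := mem_exO.mp (mem_allS.mp hy (c i)) q0 le_rfl
    obtain ⟨q2, hq2, h, -, h2⟩ := mem_exR.mp h1 q1 le_rfl
    obtain ⟨h3, h4⟩ := mem_and.mp h2
    obtain ⟨q3, hq3, γ, h5, h6⟩ := mem_exO.mp h4 q2 le_rfl
    refine ⟨q3, δ, h, γ, mono h3 hq3, ?_⟩
    intro n t ht
    have h7 := mem_iff.mp (mem_allN.mp h6 n) t ht
    simp (disch := omega) only [FSat, Val.setN, Val.setO, Val.setR, Val.setS, Function.update_self,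
      Function.update_of_ne, Tm.eval, ne_eq] at h7
    exact h7
  choose s δ h γ hdec hps using hstep
  obtain ⟨T1, z, -, hT1, hz⟩ := Pool.Agent.Helper292.SP.pigeon (Cardinal.aleph0_le_aleph 1)
    (Set.univ : Set I) (by rwa [Cardinal.mk_univ]) (fun i => (δ i, γ i)) (by
      rw [Cardinal.mk_prod, Cardinal.mk_ord_toType, Cardinal.lift_id,
        Cardinal.mul_eq_self (Cardinal.aleph0_le_aleph 1)])
  have hT1' : ¬ Cardinal.mk T1 ≤ Cardinal.aleph0 := fun hle =>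
    hT1 (hle.trans (Cardinal.aleph0_le_aleph 1))
  obtain ⟨T2, r, hT2, hT2c, hr, hd⟩ := Cond.delta le_rfl T1 hT1' s
  have h1 : 1 < Cardinal.mk T2 := (Cardinal.one_lt_aleph0).trans (not_le.mp hT2c)
  obtain ⟨⟨e, he⟩, ⟨e', he'⟩, hne⟩ := Cardinal.one_lt_iff_nontrivial.mp h1
  have hne' : e ≠ e' := fun h => hne (Subtype.ext h)
  obtain ⟨t, ht, ht'⟩ := Cond.exists_lb
    (Cond.agree_of_root (hr e he) (hr e' he') (hd e he e' he' hne').subset)
  have hδ : δ e = δ e' := by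
    have := (hz e (hT2 he)).trans (hz e' (hT2 he')).symm
    exact (Prod.ext_iff.mp this).1
  have hγ : γ e = γ e' := by
    have := (hz e (hT2 he)).trans (hz e' (hT2 he')).symm
    exact (Prod.ext_iff.mp this).2
  obtain ⟨n, hn⟩ : ∃ n, (e, n) ∉ t.dom ∧ (e', n) ∉ t.dom := by
    have hfin : ((Prod.snd : I × ℕ → ℕ) '' t.dom).Finite := t.dom_finite.image _
    obtain ⟨n, hn⟩ := hfin.exists_notMem
    exact ⟨n, fun h => hn ⟨_, h, rfl⟩, fun h => hn ⟨_, h, rfl⟩⟩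
  obtain ⟨t1, ht1, hm1, hx1⟩ := Cond.exists_ext t hn.1 true
  have hn2 : (e', n) ∉ t1.dom := by
    intro hmem
    obtain ⟨b, hb⟩ := Cond.mem_dom.mp hmem
    rcases hx1 _ hb with h2 | h2
    · exact hne' (by
        have := (Prod.ext_iff.mp h2).1
        exact (Prod.ext_iff.mp this).1.symm)
    · exact hn.2 (Cond.mem_dom.mpr ⟨b, h2⟩)
  obtain ⟨t2, ht2, hm2, -⟩ := Cond.exists_ext t1 hn2 false
  have hte : t2 ≤ s e := (ht2.trans ht1).trans ht
  have hte' : t2 ≤ s e' := (ht2.trans ht1).trans ht'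
  have hEz : EqV (Z + 1) t2 ((((v.setS Z y).setS (Z + 2) (c e)).setO Z (δ e)).setR (Z + 1) (h e))
      ((((v.setS Z y).setS (Z + 2) (c e')).setO Z (δ e')).setR (Z + 1) (h e')) := by
    intro i hi
    rw [hδ]
    refine ⟨rfl, rfl, ?_, ?_⟩
    · simp (disch := omega) only [Val.setS, Val.setO, Val.setR, Function.update_of_ne, ne_eq]
      exact EqS.refl _ _
    · simp (disch := omega) only [Val.setS, Val.setO, Val.setR, Function.update_of_ne, ne_eq]
      exact EqR.refl _ _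
  have hEh := dec_uniq hK hZ hχ hFi _ _ hEz (mono (hdec e) hte) (mono (hdec e') hte')
  simp only [Val.setR, Function.update_self] at hEh
  have hEz2 : EqV (Z + 2) t2
      (((((((v.setS Z y).setS (Z + 2) (c e)).setO Z (δ e)).setR (Z + 1) (h e)).setO
        (Z + 1) (γ e))).setN K n)
      (((((((v.setS Z y).setS (Z + 2) (c e')).setO Z (δ e')).setR (Z + 1) (h e')).setO
        (Z + 1) (γ e'))).setN K n) := by
    rw [← hδ, ← hγ]
    refine (EqV.setO (EqV.setR ?_ (Z + 1) hEh) (Z + 1) _).setN K n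
    intro i hi
    refine ⟨rfl, rfl, ?_, EqR.refl _ _⟩
    simp (disch := omega) only [Val.setS, Val.setO, Function.update_of_ne, ne_eq]
    exact EqS.refl _ _
  have key : t2 ∈ meets (c e n) ↔ t2 ∈ meets (c e' n) := by
    rw [hps e n t2 hte, hps e' n t2 hte']
    exact leibniz Ps hPs t2 _ _ hEz2
  have hin : t2 ∈ meets (c e n) := by
    intro q hq
    exact ⟨q, le_rfl, q, hq (ht2 hm1), le_rfl⟩
  obtain ⟨u, hu, w, hw, huw⟩ := key.mp hin t2 le_rfl
  have h2 : ((e', n), true) ∈ u.s := huw hw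
  exact absurd (u.fn _ h2) (by simpa using hu hm2)

end Pool.Agent.Helper97.LC
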