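import Mathlib
import Pool.Agent.Helper97_LC.Uniq

/-! # The sets of numbers used for coding -/

set_option autoImplicit false

namespace Pool.Agent.Helper97.LC

open Pool.Agent.Helper669.Forcing

/-! ### The conditions, in the ground model -/

/-- Every column of `b` is empty or a term `x ξ` with `ξ < lam`, and there are such terms with
arbitrarily large `ξ < lam`. -/
def QL (lam : Om) (x : Om → ℕ → Prop) (b : ℕ → Prop) : Prop :=
  (∀ n, (∀ m, ¬ b (Nat.pair n m)) ∨ ∃ ξ, ξ < lam ∧ ∀ m, (b (Nat.pair n m) ↔ x ξ m)) ∧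
  ∀ η, η < lam → ∃ n, ∃ ξ, ¬ ξ < η ∧ ξ < lam ∧ ∀ m, (b (Nat.pair n m) ↔ x ξ m)

/-- `b` is computed from the last term -/
def S0L (lam : Om) (x : Om → ℕ → Prop) (b : ℕ → Prop) : Prop :=
  ∀ n m, b (Nat.pair n m) ↔ ∃ μ, μ < lam ∧ (∀ ν, ν < lam → ¬ μ < ν) ∧ x μ m

/-- `b` is computed from the relation `R` -/
def S1L (lam : Om) (x : Om → ℕ → Prop) (R : Om → ℕ → Prop) (b : ℕ → Prop) : Prop :=
  ∀ n m, b (Nat.pair n m) ↔ ∃ ξ, ξ < lam ∧ R ξ n ∧ x ξ m

/-- `b` is the limit of the approximations at the places in `R` with the colour `c` -/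
def S2L (lam : Om) (x : Om → ℕ → Prop) (R : Om → ℕ → Prop) (c : ℕ) (b : ℕ → Prop) : Prop :=
  ∀ i, b i ↔ ∃ η, η < lam ∧ ∀ ξ, ¬ ξ < η ∧ ξ < lam ∧ R ξ 0 ∧ x ξ (Nat.pair 1 c) →
    x ξ (Nat.pair 2 i)

/-- `b` is the limit of the approximations at the places with the colour `c` -/
def S3L (lam : Om) (x : Om → ℕ → Prop) (c : ℕ) (b : ℕ → Prop) : Prop :=
  ∀ i, b i ↔ ∃ η, η < lam ∧ ∀ ξ, ¬ ξ < η ∧ ξ < lam ∧ x ξ (Nat.pair 1 c) →
    x ξ (Nat.pair 2 i)

/-- `b` may be used for coding the term `x lam` -/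
def Leg (ψ : Fm) (A : Set Om) (lam : Om) (x : Om → ℕ → Prop) (b : ℕ → Prop) : Prop :=
  QL lam x b ∧ (S0L lam x b ∨ (∃ c, S3L lam x c b) ∨
    ∃ R, Bdd R ∧ Holds ψ lam (initA A lam) R ∧ (S1L lam x R b ∨ ∃ c, S2L lam x R c b))

/-! ### The formulas -/

/-- 1 -/
def t1 : Tm := .succ .zero
/-- 2 -/
def t2 : Tm := .succ (.succ .zero)
/-- 4 -/
def t4 : Tm := .succ (.succ (.succ (.succ .zero)))
/-- 5 -/
def t5 : Tm := .succ t4

/-- the formula for `QL` -/
def QF (K : ℕ) : Fm :=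
  .and
    (.allN K (.or (.allN (K + 1) (.neg (.memS K (.pair (.var K) (.var (K + 1))))))
      (.exO (K + 1) (.and (.lt (K + 1) 0) (.allN (K + 1)
        (.iff (.memS K (.pair (.var K) (.var (K + 1)))) (.memR K (K + 1) (.var (K + 1)))))))))
    (.allO (K + 2) (.imp (.lt (K + 2) 0) (.exN K (.exO (K + 1) (.and (.neg (.lt (K + 1) (K + 2)))
      (.and (.lt (K + 1) 0) (.allN (K + 1)
        (.iff (.memS K (.pair (.var K) (.var (K + 1)))) (.memR K (K + 1) (.var (K + 1)))))))))))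

/-- the formula for `S0L` -/
def S0F (K : ℕ) : Fm :=
  .allN K (.allN (K + 1) (.iff (.memS K (.pair (.var K) (.var (K + 1))))
    (.exO (K + 1) (.and (.lt (K + 1) 0) (.and
      (.allO (K + 2) (.imp (.lt (K + 2) 0) (.neg (.lt (K + 1) (K + 2)))))
      (.memR K (K + 1) (.var (K + 1))))))))

/-- the formula for `S1L` -/
def S1F (K : ℕ) : Fm :=
  .allN K (.allN (K + 1) (.iff (.memS K (.pair (.var K) (.var (K + 1))))
    (.exO (K + 1) (.and (.lt (K + 1) 0) (.and (.memR 1 (K + 1) (.var K))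
      (.memR K (K + 1) (.var (K + 1))))))))

/-- the formula for `S2L` -/
def S2F (K : ℕ) : Fm :=
  .allN K (.iff (.memS K (.var K)) (.exO (K + 2) (.and (.lt (K + 2) 0) (.allO (K + 1)
    (.imp (.and (.neg (.lt (K + 1) (K + 2))) (.and (.lt (K + 1) 0) (.and (.memR 1 (K + 1) .zero)
      (.memR K (K + 1) (.pair t1 (.var (K + 2)))))))
      (.memR K (K + 1) (.pair t2 (.var K))))))))

/-- the formula for `S3L` -/
def S3F (K : ℕ) : Fm :=
  .allN K (.iff (.memS K (.var K)) (.exO (K + 2) (.and (.lt (K + 2) 0) (.allO (K + 1)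
    (.imp (.and (.neg (.lt (K + 1) (K + 2))) (.and (.lt (K + 1) 0)
      (.memR K (K + 1) (.pair t1 (.var (K + 2))))))
      (.memR K (K + 1) (.pair t2 (.var K))))))))

/-- the formula for the initial segment of `A` -/
def IF (K : ℕ) : Fm :=
  .allO (K + 1) (.allN K (.iff (.memR 0 (K + 1) (.var K))
    (.and (.memR K (K + 1) (.pair .zero .zero)) (.and (.lt (K + 1) 0) (.eq (.var K) .zero)))))

/-- the formula for `Leg` -/
def chiF (ψ : Fm) (K : ℕ) : Fm :=
  .and (QF K) (.or (S0F K) (.or (.exN (K + 2) (S3F K))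
    (.exR 0 (.and (IF K) (.exR 1 (.and ψ (.or (S1F K) (.exN (K + 2) (S2F K)))))))))

theorem sat_QF (K : ℕ) (v : VV) : Sat (QF K) v ↔ QL (v.o 0) (v.r K) (v.s K) := by
  simp (disch := omega) only [QF, sat_and, sat_or, sat_allN, sat_allO, sat_exO, sat_exN, sat_imp,
    sat_iff, sat_neg, Sat, Val.setN, Val.setO, Function.update_self, Function.update_of_ne,
    Tm.eval, ne_eq, QL]

theorem sat_S0F (K : ℕ) (v : VV) : Sat (S0F K) v ↔ S0L (v.o 0) (v.r K) (v.s K) := by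
  simp (disch := omega) only [S0F, sat_and, sat_or, sat_allN, sat_allO, sat_exO, sat_exN, sat_imp,
    sat_iff, sat_neg, Sat, Val.setN, Val.setO, Function.update_self, Function.update_of_ne,
    Tm.eval, ne_eq, S0L]

theorem sat_S1F (K : ℕ) (v : VV) : Sat (S1F K) v ↔ S1L (v.o 0) (v.r K) (v.r 1) (v.s K) := by
  simp (disch := omega) only [S1F, sat_and, sat_or, sat_allN, sat_allO, sat_exO, sat_exN, sat_imp,
    sat_iff, sat_neg, Sat, Val.setN, Val.setO, Function.update_self, Function.update_of_ne,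
    Tm.eval, ne_eq, S1L]

theorem sat_S2F (K : ℕ) (v : VV) :
    Sat (S2F K) v ↔ S2L (v.o 0) (v.r K) (v.r 1) (v.n (K + 2)) (v.s K) := by
  simp (disch := omega) only [S2F, sat_and, sat_or, sat_allN, sat_allO, sat_exO, sat_exN, sat_imp,
    sat_iff, sat_neg, Sat, Val.setN, Val.setO, Function.update_self, Function.update_of_ne,
    Tm.eval, ne_eq, S2L, t1, t2, zero_add]

theorem sat_S3F (K : ℕ) (v : VV) :
    Sat (S3F K) v ↔ S3L (v.o 0) (v.r K) (v.n (K + 2)) (v.s K) := by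
  simp (disch := omega) only [S3F, sat_and, sat_or, sat_allN, sat_allO, sat_exO, sat_exN, sat_imp,
    sat_iff, sat_neg, Sat, Val.setN, Val.setO, Function.update_self, Function.update_of_ne,
    Tm.eval, ne_eq, S3L, t1, t2, zero_add]

theorem sat_IF (K : ℕ) (v : VV) :
    Sat (IF K) v ↔ ∀ γ n, (v.r 0 γ n ↔ v.r K γ (Nat.pair 0 0) ∧ γ < v.o 0 ∧ n = 0) := by
  simp (disch := omega) only [IF, sat_and, sat_or, sat_allN, sat_allO, sat_exO, sat_exN, sat_imp,
    sat_iff, sat_neg, Sat, Val.setN, Val.setO, Function.update_self, Function.update_of_ne,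
    Tm.eval, ne_eq]

theorem leg_congr {ψ : Fm} {A : Set Om} {lam : Om} {x x' : Om → ℕ → Prop} {b : ℕ → Prop}
    (h : ∀ ξ < lam, x ξ = x' ξ) (hl : Leg ψ A lam x b) : Leg ψ A lam x' b := by
  obtain ⟨hQ, hS⟩ := hl
  refine ⟨⟨fun n => ?_, fun η hη => ?_⟩, ?_⟩
  · rcases hQ.1 n with h1 | ⟨ξ, h1, h2⟩
    · exact Or.inl h1
    · exact Or.inr ⟨ξ, h1, h ξ h1 ▸ h2⟩
  · obtain ⟨n, ξ, h1, h2, h3⟩ := hQ.2 η hη
    exact ⟨n, ξ, h1, h2, h ξ h2 ▸ h3⟩
  · rcases hS with h1 | ⟨c, h1⟩ | ⟨R, hR, hR', h1 | ⟨c, h1⟩⟩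
    · refine Or.inl fun n m => (h1 n m).trans ?_
      exact exists_congr fun μ => and_congr_right fun hμ => by rw [h μ hμ]
    · refine Or.inr (Or.inl ⟨c, fun i => (h1 i).trans ?_⟩)
      refine exists_congr fun η => and_congr_right fun _ => forall_congr' fun ξ => ?_
      constructor
      · rintro h2 ⟨h3, h4, h5⟩
        rw [← h ξ h4] at h5 ⊢
        exact h2 ⟨h3, h4, h5⟩
      · rintro h2 ⟨h3, h4, h5⟩
        rw [h ξ h4] at h5 ⊢
        exact h2 ⟨h3, h4, h5⟩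
    · refine Or.inr (Or.inr ⟨R, hR, hR', Or.inl fun n m => (h1 n m).trans ?_⟩)
      exact exists_congr fun μ => and_congr_right fun hμ => by rw [h μ hμ]
    · refine Or.inr (Or.inr ⟨R, hR, hR', Or.inr ⟨c, fun i => (h1 i).trans ?_⟩⟩)
      refine exists_congr fun η => and_congr_right fun _ => forall_congr' fun ξ => ?_
      constructor
      · rintro h2 ⟨h3, h4, h5, h6⟩
        rw [← h ξ h4] at h6 ⊢
        exact h2 ⟨h3, h4, h5, h6⟩
      · rintro h2 ⟨h3, h4, h5, h6⟩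
        rw [h ξ h4] at h6 ⊢
        exact h2 ⟨h3, h4, h5, h6⟩

/-- The set used for coding determines the place. -/
theorem QL_uniq {x : Om → ℕ → Prop} {b : ℕ → Prop} {l l' : Om} (h : QL l x b) (h' : QL l' x b)
    (hne : ∀ ξ < l', ∃ m, x ξ m) (hinj : ∀ ξ < l', ∀ η < l', x ξ = x η → ξ = η) : l' ≤ l := by
  by_contra hlt
  push Not at hlt
  obtain ⟨n, ξ, h1, h2, h3⟩ := h'.2 l hlt
  obtain ⟨m, hm⟩ := hne ξ h2
  rcases h.1 n with h4 | ⟨ζ, h4, h5⟩
  · exact h4 m ((h3 m).mpr hm)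
  · have h6 : x ξ = x ζ := by
      funext k
      exact propext ((h3 k).symm.trans (h5 k))
    have h7 := hinj ξ h2 ζ (h4.trans hlt) h6
    exact h1 (h7 ▸ h4)

/-! ### Absoluteness of legality -/

section

variable {P : Type} [Preorder P]

/-- the assignment gives the value `lam` to the ordinal variable `0` and is trivial otherwise,
for variables with index less than `K` -/
def BaseV (K : ℕ) (lam : Om) (w : FV P) : Prop :=
  w.o 0 = lam ∧ ∀ i < K, w.n i = 0 ∧ (i ≠ 0 → w.o i = default) ∧ (w.s i = fun _ => ∅) ∧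
    (w.r i = fun _ _ => ∅)

theorem base_eqV {K : ℕ} {lam : Om} {w : FV P} (h : BaseV K lam w) (p : P)
    {X Y R R' : Om → ℕ → Set P} (hX : EqR p X Y) (hR : EqR p R R') :
    EqV K p ((w.setR 0 X).setR 1 R) ((((zeroF P).setO 0 lam).setR 0 Y).setR 1 R') := by
  refine EqV.setR (K := K) (p := p) ?_ 1 hR
  intro i hi
  obtain ⟨h1, h2, h3, h4⟩ := h.2 i hi
  refine ⟨h1, ?_, ?_, ?_⟩
  · by_cases hi0 : i = 0
    · subst hi0
      simp only [Val.setR, Val.setO, Function.update_self, h.1]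
    · simp only [Val.setR, Val.setO, Function.update_of_ne hi0, h2 hi0, zeroF]
  · simp only [Val.setR, Val.setO, zeroF, h3]
    exact EqS.refl _ _
  · by_cases hi0 : i = 0
    · subst hi0
      simp only [Val.setR, Val.setO, Function.update_self]
      exact hX
    · simp only [Val.setR, Val.setO, Function.update_of_ne hi0, h4, zeroF]
      exact EqR.refl _ _

theorem bdd_initA (A : Set Om) (lam : Om) : Bdd (initA A lam) := ⟨lam, fun _ _ h => h.2.1⟩

theorem fbdd_chk {X : Om → ℕ → Prop} (h : Bdd X) (p : P) : p ∈ fbdd (chkR (P := P) X) := by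
  obtain ⟨δ, hδ⟩ := h
  rw [fbdd, mem_fex]
  intro q _
  refine ⟨q, le_rfl, δ, fun γ n => ?_⟩
  rw [mem_fimp]
  intro r _ hr
  exact ⟨r, le_rfl, hδ γ n ((meets_chk _ _).mp hr)⟩

theorem fbdd_congr {p : P} {X Y : Om → ℕ → Set P} (h : EqR p X Y) (hX : p ∈ fbdd X) :
    p ∈ fbdd Y := by
  rw [fbdd, mem_fex] at hX ⊢
  intro q hq
  obtain ⟨r, hr, δ, h1⟩ := hX q hq
  refine ⟨r, hr, δ, fun γ n => ?_⟩
  have h2 := h1 γ n
  rw [mem_fimp] at h2 ⊢
  intro s hs hsm
  exact h2 s hs ((h γ n s ((hs.trans hr).trans hq)).mpr hsm)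

end

end Pool.Agent.Helper97.LC
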