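import Mathlib
import Pool.Agent.Helper97_LC.Legal

/-! # Legality in the extension -/

set_option autoImplicit false

namespace Pool.Agent.Helper97.LC

open Pool.Agent.Helper669.Forcing

section

variable {P : Type} [Preorder P] {ψ : Fm} {A : Set Om} {K : ℕ}

/-- a ground model assignment -/
def gv (w : FV P) (b : ℕ → Prop) (x R : Om → ℕ → Prop) : VV :=
  ⟨w.n, w.o, fun _ => b, fun i => if i = 1 then R else x⟩

theorem ground1 {φ : Fm} (hφ : FO (fun _ => False) (fun i => i = K ∨ i = 1) φ) (hK : 2 ≤ K)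
    {w : FV P} {x R : Om → ℕ → Prop} (hx : w.r K = chkR x) (hR : w.r 1 = chkR R) {r : P}
    (h : r ∈ FSat P (.allN K (.iff (.memS K (.var K)) φ)) w) :
    ∃ b, EqS r (w.s K) (chkS b) := by
  refine ⟨fun i => Sat φ ((gv w (fun _ => False) x R).setN K i), fun i q hq => ?_⟩
  have h1 := mem_iff.mp (mem_allN.mp h i) q hq
  rw [fo_abs φ hφ ((gv w (fun _ => False) x R).setN K i) (w.setN K i) rfl rfl
    (fun j hj => hj.elim) (by
      rintro j (rfl | rfl)
      · show w.r j = _
        rw [hx]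
        simp only [Val.setN, gv]
        rw [if_neg (by omega)]
      · show w.r 1 = _
        rw [hR]
        simp only [Val.setN, gv, if_true])] at h1
  simp only [FSat, Val.setN, Tm.eval, Function.update_self] at h1
  rw [h1]
  exact (meets_chk _ _).symm

theorem ground2 {φ : Fm} (hφ : FO (fun _ => False) (fun i => i = K ∨ i = 1) φ) (hK : 2 ≤ K)
    {w : FV P} {x R : Om → ℕ → Prop} (hx : w.r K = chkR x) (hR : w.r 1 = chkR R) {r : P}
    (h : r ∈ FSat P (.allN K (.allN (K + 1)
      (.iff (.memS K (.pair (.var K) (.var (K + 1)))) φ))) w) :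
    ∃ b, EqS r (w.s K) (chkS b) := by
  refine ⟨fun i => Sat φ (((gv w (fun _ => False) x R).setN K i.unpair.1).setN (K + 1)
    i.unpair.2), fun i q hq => ?_⟩
  have h1 := mem_iff.mp (mem_allN.mp (mem_allN.mp h i.unpair.1) i.unpair.2) q hq
  rw [fo_abs φ hφ (((gv w (fun _ => False) x R).setN K i.unpair.1).setN (K + 1) i.unpair.2)
    ((w.setN K i.unpair.1).setN (K + 1) i.unpair.2) rfl rfl
    (fun j hj => hj.elim) (by
      rintro j (rfl | rfl)
      · show w.r j = _
        rw [hx]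
        simp only [Val.setN, gv]
        rw [if_neg (by omega)]
      · show w.r 1 = _
        rw [hR]
        simp only [Val.setN, gv, if_true])] at h1
  simp (disch := omega) only [FSat, Val.setN, Tm.eval, Function.update_self,
    Function.update_of_ne, ne_eq, Nat.pair_unpair] at h1
  rw [h1]
  exact (meets_chk _ _).symm

theorem transfer {F : Fm} (hF : FO (fun i => i = K) (fun i => i = K ∨ i = 1) F) (hK : 2 ≤ K)
    {w : FV P} {x R : Om → ℕ → Prop} (hx : w.r K = chkR x) (hR : w.r 1 = chkR R) {r : P}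
    {b : ℕ → Prop} (hb : EqS r (w.s K) (chkS b)) (h : r ∈ FSat P F w) :
    Sat F (gv w b x R) := by
  have h1 : r ∈ FSat P F (w.setS K (chkS b)) := by
    refine (leibniz (K := F.bd) F le_rfl r w (w.setS K (chkS b)) ?_).mp h
    intro i hi
    refine ⟨rfl, rfl, ?_, EqR.refl _ _⟩
    by_cases hiK : i = K
    · subst hiK
      simpa only [Val.setS, Function.update_self] using hb
    · simp only [Val.setS, Function.update_of_ne hiK]
      exact EqS.refl _ _
  refine (fo_abs F hF (gv w b x R) (w.setS K (chkS b)) rfl rfl ?_ ?_ r).mp h1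
  · rintro i rfl
    simp only [Val.setS, Function.update_self, gv]
  · rintro j (rfl | rfl)
    · show w.r j = _
      rw [hx]
      simp only [gv]
      rw [if_neg (by omega)]
    · show w.r 1 = _
      rw [hR]
      simp only [gv, if_true]

theorem transfer' {F : Fm} (hF : FO (fun i => i = K) (fun i => i = K ∨ i = 1) F) (hK : 2 ≤ K)
    {w : FV P} {x R : Om → ℕ → Prop} (hx : w.r K = chkR x) (hR : w.r 1 = chkR R) {r : P}
    {b : ℕ → Prop} (hb : w.s K = chkS b) (h : Sat F (gv w b x R)) : r ∈ FSat P F w := by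
  refine (fo_abs F hF (gv w b x R) w rfl rfl ?_ ?_ r).mpr h
  · rintro i rfl
    exact hb
  · rintro j (rfl | rfl)
    · rw [hx]
      simp only [gv]
      rw [if_neg (by omega)]
    · rw [hR]
      simp only [gv, if_true]

theorem fo_QF : FO (fun i => i = K) (fun i => i = K) (QF K) := by
  simp only [QF, FO, Fm.or, Fm.iff, Fm.imp, Fm.exO, Fm.exN, and_self]
theorem fo_S0F : FO (fun i => i = K) (fun i => i = K) (S0F K) := by
  simp only [S0F, FO, Fm.or, Fm.iff, Fm.imp, Fm.exO, Fm.exN, and_self]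
theorem fo_S3F : FO (fun i => i = K) (fun i => i = K) (S3F K) := by
  simp only [S3F, FO, Fm.or, Fm.iff, Fm.imp, Fm.exO, Fm.exN, and_self]
theorem fo_S1F : FO (fun i => i = K) (fun i => i = K ∨ i = 1) (S1F K) := by
  simp only [S1F, FO, Fm.or, Fm.iff, Fm.imp, Fm.exO, Fm.exN, and_self, true_or, or_true]
theorem fo_S2F : FO (fun i => i = K) (fun i => i = K ∨ i = 1) (S2F K) := by
  simp only [S2F, FO, Fm.or, Fm.iff, Fm.imp, Fm.exO, Fm.exN, and_self, true_or, or_true]

theorem fo_mono {S R S' R' : ℕ → Prop} (hS : ∀ i, S i → S' i) (hR : ∀ i, R i → R' i) (F : Fm)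
    (h : FO S R F) : FO S' R' F := by
  induction F with
  | eq s t => trivial
  | bit s t => trivial
  | lt i j => trivial
  | memS i t => exact hS i h
  | memR i j t => exact hR i h
  | neg φ ih => exact ih h
  | and φ ψ ih ih' => exact ⟨ih h.1, ih' h.2⟩
  | allN i φ ih => exact ih h
  | allO i φ ih => exact ih h
  | allS i φ ih => exact h.elim
  | allR i φ ih => exact h.elim

theorem fo_chk1 {S R : ℕ → Prop} {F : Fm} (h : FO S R F) (w : FV P) (v : VV)
    (h1 : w.n = v.n) (h2 : w.o = v.o) (h3 : ∀ i, S i → w.s i = chkS (v.s i))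
    (h4 : ∀ i, R i → w.r i = chkR (v.r i)) (p : P) : (p ∈ FSat P F w ↔ Sat F v) :=
  fo_abs F h v w h1 h2 h3 h4 p

/-- Legal sets are forced to be legal. -/
theorem leg_forced (hst : StatPres P) (hfr : Frozen ψ A) (hK : 2 ≤ K) (hψ : ψ.bd ≤ K) {lam : Om}
    {w : FV P} (hw : BaseV K lam w) {x : Om → ℕ → Prop} (hx : w.r K = chkR x)
    (hbits : ∀ ξ < lam, (x ξ (Nat.pair 0 0) ↔ ξ ∈ A)) {b : ℕ → Prop} (hb : w.s K = chkS b)
    (hl : Leg ψ A lam x b) (p : P) : p ∈ FSat P (chiF ψ K) w := by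
  have ho : w.o 0 = lam := hw.1
  let v : VV := ⟨w.n, w.o, fun _ => b, fun _ => x⟩
  have hv : ∀ F, FO (fun i => i = K) (fun i => i = K) F → ∀ (w' : FV P) (k : ℕ → ℕ), w'.n = k →
      w'.o = w.o → w'.s = w.s → w'.r = w.r → ∀ q, (q ∈ FSat P F w' ↔ Sat F { v with n := k }) := by
    intro F hF w' k h0 h1 h2 h3 q
    refine fo_abs F hF _ w' h0 h1 ?_ ?_ q
    · rintro i rfl
      rw [h2, hb]
    · rintro i rfl
      rw [h3, hx]
  obtain ⟨hQ, hS⟩ := hl
  refine mem_and.mpr ⟨?_, ?_⟩
  · rw [hv (QF K) fo_QF w w.n rfl rfl rfl rfl, sat_QF]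
    show QL (w.o 0) x b
    rw [ho]
    exact hQ
  · rw [mem_or]
    intro q hq
    refine ⟨q, le_rfl, ?_⟩
    rcases hS with h0 | ⟨c, h3⟩ | ⟨R, hR, hR', h12⟩
    · left
      rw [hv (S0F K) fo_S0F w w.n rfl rfl rfl rfl, sat_S0F]
      show S0L (w.o 0) x b
      rw [ho]
      exact h0
    · right
      rw [mem_or]
      intro q' hq'
      refine ⟨q', le_rfl, Or.inl ?_⟩
      rw [mem_exN]
      intro q'' hq''
      refine ⟨q'', le_rfl, c, ?_⟩
      rw [hv (S3F K) fo_S3F (w.setN (K + 2) c) _ rfl rfl rfl rfl, sat_S3F]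
      show S3L (w.o 0) x (Function.update w.n (K + 2) c (K + 2)) b
      rw [ho, Function.update_self]
      exact h3
    · right
      rw [mem_or]
      intro q' hq'
      refine ⟨q', le_rfl, Or.inr ?_⟩
      rw [mem_exR]
      intro q2 hq2
      refine ⟨q2, le_rfl, chkR (initA A lam), fbdd_chk (bdd_initA A lam) q2, ?_⟩
      refine mem_and.mpr ⟨?_, ?_⟩
      · have hIF : FO (fun _ => False) (fun i => i = K ∨ i = 0) (IF K) := by
          simp only [IF, FO, Fm.or, Fm.iff, Fm.imp, Fm.exO, Fm.exN, and_self, true_or, or_true]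
        refine (fo_abs (IF K) hIF ⟨w.n, w.o, fun _ => b, fun i => if i = 0 then initA A lam else x⟩
          (w.setR 0 (chkR (initA A lam))) rfl rfl (fun i h => h.elim) ?_ q2).mpr ?_
        · rintro i (rfl | rfl)
          · simp only [Val.setR]
            rw [Function.update_of_ne (by omega), hx, if_neg (by omega)]
          · simp only [Val.setR, Function.update_self, if_true]
        · rw [sat_IF]
          intro γ n
          show initA A lam γ n ↔ (if K = 0 then initA A lam else x) γ (Nat.pair 0 0) ∧ γ < w.o 0 ∧ n = 0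
          rw [if_neg (by omega), ho]
          constructor
          · rintro ⟨h1, h2, h3⟩
            exact ⟨(hbits γ h2).mpr h1, h2, h3⟩
          · rintro ⟨h1, h2, h3⟩
            exact ⟨(hbits γ h2).mp h1, h2, h3⟩
      · rw [mem_exR]
        intro q3 hq3
        refine ⟨q3, le_rfl, chkR R, fbdd_chk hR q3, ?_⟩
        refine mem_and.mpr ⟨?_, ?_⟩
        · refine (leibniz ψ hψ q3 _ _ (base_eqV hw q3 (EqR.refl _ _) (EqR.refl _ _))).mpr ?_
          exact (hfr P hst lam).1 R hR hR' q3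
        · have hr1 : ((w.setR 0 (chkR (initA A lam))).setR 1 (chkR R)).r K = chkR x := by
            simp only [Val.setR]
            rw [Function.update_of_ne (by omega), Function.update_of_ne (by omega), hx]
          have hr2 : ((w.setR 0 (chkR (initA A lam))).setR 1 (chkR R)).r 1 = chkR R := by
            simp only [Val.setR, Function.update_self]
          rw [mem_or]
          intro q4 hq4
          refine ⟨q4, le_rfl, ?_⟩
          rcases h12 with h1 | ⟨c, h2⟩
          · left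
            refine transfer' fo_S1F hK hr1 hr2 (b := b) hb ?_
            rw [sat_S1F]
            show S1L (w.o 0) (if K = 1 then R else x) (if 1 = 1 then R else x) b
            rw [if_neg (by omega), if_pos rfl, ho]
            exact h1
          · right
            rw [mem_exN]
            intro q5 hq5
            refine ⟨q5, le_rfl, c, ?_⟩
            refine transfer' (x := x) (R := R) fo_S2F hK (by exact hr1) (by exact hr2) (b := b) hb ?_
            rw [sat_S2F]
            show S2L (w.o 0) (if K = 1 then R else x) (if 1 = 1 then R else x)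
              (Function.update w.n (K + 2) c (K + 2)) b
            rw [if_neg (by omega), if_pos rfl, ho, Function.update_self]
            exact h2

/-- Sets forced to be legal are legal sets of the ground model. -/
theorem forced_leg (hst : StatPres P) (hfr : Frozen ψ A) (hK : 2 ≤ K) (hψ : ψ.bd ≤ K) {lam : Om}
    {w : FV P} (hw : BaseV K lam w) {x : Om → ℕ → Prop} (hx : w.r K = chkR x)
    (hbits : ∀ ξ < lam, (x ξ (Nat.pair 0 0) ↔ ξ ∈ A)) {p : P}
    (hp : p ∈ FSat P (chiF ψ K) w) :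
    ∀ q ≤ p, ∃ r ≤ q, ∃ b, EqS r (w.s K) (chkS b) ∧ Leg ψ A lam x b := by
  intro q hq
  have ho : w.o 0 = lam := hw.1
  have hK0 : K ≠ 0 := by omega
  have hK1 : K ≠ 1 := by omega
  obtain ⟨hQ, hS⟩ := mem_and.mp hp
  have hr1e : w.r 1 = chkR (fun _ _ => False) := by
    rw [(hw.2 1 (by omega)).2.2.2]
    funext γ n
    simp only [chkR, Set.ofPred_false]
  have hQ' : ∀ r ≤ p, ∀ b, EqS r (w.s K) (chkS b) → QL lam x b := by
    intro r hr b hb
    have h1 := transfer (F := QF K) (fo_mono (fun _ h => h) (fun _ h => Or.inl h) _ fo_QF) hK hx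
      hr1e hb (mono hQ hr)
    rw [sat_QF] at h1
    simp only [gv, if_neg hK1, ho] at h1
    exact h1
  obtain ⟨r1, hr1, h1 | h1⟩ := mem_or.mp hS q hq
  · obtain ⟨b, hb⟩ := ground2 (K := K) (by
      simp only [FO, Fm.or, Fm.iff, Fm.imp, Fm.exO, Fm.exN, and_self, true_or]) hK hx hr1e h1
    refine ⟨r1, hr1, b, hb, hQ' r1 (hr1.trans hq) b hb, Or.inl ?_⟩
    have h2 := transfer (F := S0F K) (fo_mono (fun _ h => h) (fun _ h => Or.inl h) _ fo_S0F) hK hx
      hr1e hb h1
    rw [sat_S0F] at h2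
    simp only [gv, if_neg hK1, ho] at h2
    exact h2
  obtain ⟨r2, hr2, h2 | h2⟩ := mem_or.mp h1 r1 le_rfl
  · obtain ⟨r3, hr3, c, h3⟩ := mem_exN.mp h2 r2 le_rfl
    obtain ⟨b, hb⟩ := ground1 (K := K) (w := w.setN (K + 2) c) (by
      simp only [FO, Fm.or, Fm.iff, Fm.imp, Fm.exO, Fm.exN, and_self, true_or]) hK hx
      (by exact hr1e) h3
    have hle : r3 ≤ q := (hr3.trans hr2).trans hr1
    refine ⟨r3, hle, b, hb, hQ' r3 (hle.trans hq) b hb, Or.inr (Or.inl ⟨c, ?_⟩)⟩
    have h4 := transfer (F := S3F K) (fo_mono (fun _ h => h) (fun _ h => Or.inl h) _ fo_S3F) hK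
      (w := w.setN (K + 2) c) hx (by exact hr1e) hb h3
    rw [sat_S3F] at h4
    simp only [gv, if_neg hK1, Val.setN, ho, Function.update_self] at h4
    exact h4
  obtain ⟨r3, hr3, X, -, h3⟩ := mem_exR.mp h2 r2 le_rfl
  obtain ⟨hI, h4⟩ := mem_and.mp h3
  have hX : EqR r3 X (chkR (initA A lam)) := by
    intro γ n s hs
    have h5 := mem_iff.mp (mem_allN.mp (mem_allO.mp hI γ) n) s hs
    simp (disch := omega) only [FSat, Val.setN, Val.setO, Val.setR, Function.update_self,
      Function.update_of_ne, Tm.eval, mem_fground, ne_eq, mem_fand, hx, ho, hK0, hK1,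
      not_false_eq_true] at h5
    rw [h5, chkR, chkR, meets_chk, meets_chk]
    constructor
    · rintro ⟨h6, h7, h8⟩
      exact ⟨(hbits γ h7).mp h6, h7, h8⟩
    · rintro ⟨h6, h7, h8⟩
      exact ⟨(hbits γ h7).mpr h6, h7, h8⟩
  obtain ⟨r4, hr4, N, hNb, h5⟩ := mem_exR.mp h4 r3 le_rfl
  obtain ⟨hψ', h6⟩ := mem_and.mp h5
  have hH : r4 ∈ FHolds P ψ lam (chkR (initA A lam)) N :=
    (leibniz ψ hψ r4 _ _ (base_eqV hw r4 (hX.mono hr4) (EqR.refl _ _))).mp hψ'
  obtain ⟨r5, hr5, ⟨R, hR, hR'⟩, h7⟩ := mem_fex.mp ((hfr P hst lam).2 N r4 hNb hH) r4 le_rfl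
  have hN : EqR r5 N (chkR R) := by
    intro γ n s hs
    obtain ⟨h8, h9⟩ := h7 γ n
    rw [chkR, meets_chk]
    constructor
    · intro hm
      obtain ⟨t, _, ht⟩ := mem_fimp.mp h8 s hs hm
      exact ht
    · intro hm
      refine reg_meets _ s fun s' hs' => ?_
      obtain ⟨t, ht, ht'⟩ := mem_fimp.mp h9 s' (hs'.trans hs) hm
      exact ⟨t, ht, ht'⟩
  obtain ⟨r6, hr6, h8⟩ := mem_or.mp h6 r5 hr5
  have hle : r6 ≤ q := (((((hr6.trans hr5).trans hr4).trans hr3).trans hr2).trans hr1)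
  have hEq : ∀ (L : ℕ) (k : FV P → FV P), (∀ u u' : FV P, EqV L r6 u u' → EqV L r6 (k u) (k u')) →
      EqV L r6 (k ((w.setR 0 X).setR 1 N)) (k ((w.setR 0 X).setR 1 (chkR R))) := by
    intro L k hk
    exact hk _ _ (EqV.setR (EqV.refl _ _ _) 1 (hN.mono hr6))
  have hrK : ((w.setR 0 X).setR 1 (chkR R)).r K = chkR x := by
    simp only [Val.setR]
    rw [Function.update_of_ne hK1, Function.update_of_ne hK0, hx]
  have hr1' : ((w.setR 0 X).setR 1 (chkR R)).r 1 = chkR R := by
    simp only [Val.setR, Function.update_self]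
  rcases h8 with h8 | h8
  · have h9 : r6 ∈ FSat P (S1F K) ((w.setR 0 X).setR 1 (chkR R)) :=
      (leibniz (S1F K) le_rfl r6 _ _ (hEq _ id fun _ _ h => h)).mp h8
    obtain ⟨b, hb⟩ := ground2 (K := K) (by
      simp only [FO, Fm.or, Fm.iff, Fm.imp, Fm.exO, Fm.exN, and_self, true_or, or_true]) hK hrK hr1' h9
    have hb' : EqS r6 (w.s K) (chkS b) := hb
    refine ⟨r6, hle, b, hb', hQ' r6 (hle.trans hq) b hb', Or.inr (Or.inr ⟨R, hR, hR', Or.inl ?_⟩)⟩
    have h10 := transfer (F := S1F K) fo_S1F hK hrK hr1' hb h9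
    rw [sat_S1F] at h10
    simp only [gv, if_neg hK1, if_true, Val.setR, ho] at h10
    exact h10
  · obtain ⟨r7, hr7, c, h9⟩ := mem_exN.mp h8 r6 le_rfl
    have h10 : r7 ∈ FSat P (S2F K) (((w.setR 0 X).setR 1 (chkR R)).setN (K + 2) c) :=
      (leibniz (S2F K) le_rfl r7 _ _ ((hEq _ (fun u => u.setN (K + 2) c)
        fun _ _ h => h.setN _ _).mono hr7)).mp h9
    obtain ⟨b, hb⟩ := ground1 (K := K) (w := ((w.setR 0 X).setR 1 (chkR R)).setN (K + 2) c) (by
      simp only [FO, Fm.or, Fm.iff, Fm.imp, Fm.exO, Fm.exN, and_self, true_or, or_true]) hK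
      (by exact hrK) (by exact hr1') h10
    have hb' : EqS r7 (w.s K) (chkS b) := hb
    refine ⟨r7, hr7.trans hle, b, hb', hQ' r7 ((hr7.trans hle).trans hq) b hb',
      Or.inr (Or.inr ⟨R, hR, hR', Or.inr ⟨c, ?_⟩⟩)⟩
    have h11 := transfer (F := S2F K) fo_S2F hK
      (w := ((w.setR 0 X).setR 1 (chkR R)).setN (K + 2) c) (by exact hrK) (by exact hr1') hb h10
    rw [sat_S2F] at h11
    simp only [gv, if_neg hK1, if_true, Val.setR, Val.setN, ho, Function.update_self] at h11
    exact h11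

end

end Pool.Agent.Helper97.LC
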