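import Mathlib
import Pool.Agent.Helper97_LC.Legal

/-! # Countable coding sequences -/

set_option autoImplicit false

namespace Pool.Agent.Helper97.LC

/-! ### Successors and cofinal sequences -/

/-- the least ordinal above `γ` -/
noncomputable def osucc (γ : Om) : Om := (wellFounded_lt (α := Om)).min {δ | γ < δ} (om_gt γ)

theorem lt_osucc (γ : Om) : γ < osucc γ := (wellFounded_lt (α := Om)).min_mem {δ | γ < δ} (om_gt γ)

theorem osucc_le {γ δ : Om} (h : γ < δ) : osucc γ ≤ δ := by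
  by_contra hlt
  push Not at hlt
  exact (wellFounded_lt (α := Om)).not_lt_min {δ | γ < δ} h hlt

theorem lt_osucc_iff {ξ γ : Om} : ξ < osucc γ ↔ ξ ≤ γ := by
  constructor
  · intro h
    by_contra hlt
    push Not at hlt
    exact absurd (osucc_le hlt) (not_le.mpr h)
  · intro h
    exact h.trans_lt (lt_osucc γ)

theorem default_le (γ : Om) : (default : Om) ≤ γ := by
  by_contra h
  push Not at h
  exact (wellFounded_lt (α := Om)).not_lt_min Set.univ (Set.mem_univ γ) h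

/-- Increasing sequences in a cofinal set, with prescribed lower bounds. -/
theorem exists_seq {δ : Om} (hne : ∃ γ, γ < δ) {E : Set Om} (hE : ∀ γ < δ, ∃ ξ ∈ E, γ < ξ ∧ ξ < δ)
    (a : ℕ → Om) (ha : ∀ n, a n < δ) :
    ∃ ξ : ℕ → Om, StrictMono ξ ∧ (∀ n, ξ n ∈ E) ∧ (∀ n, ξ n < δ) ∧ (∀ n, a n < ξ n) ∧
      ∀ γ < δ, ∃ n, γ < ξ n := by
  obtain ⟨e, he⟩ := (om_Iio δ).exists_eq_range hne
  have he' : ∀ n, e n < δ := fun n => by
    have : e n ∈ Set.range e := ⟨n, rfl⟩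
    rw [← he] at this
    exact this
  have hstep : ∀ γ : {γ : Om // γ < δ}, ∃ ξ : {ξ : Om // ξ < δ}, ξ.1 ∈ E ∧ γ.1 < ξ.1 := by
    intro γ
    obtain ⟨ξ, h1, h2, h3⟩ := hE γ.1 γ.2
    exact ⟨⟨ξ, h3⟩, h1, h2⟩
  choose s hs1 hs2 using hstep
  let ξ : ℕ → {ξ : Om // ξ < δ} := fun n => Nat.rec (s ⟨max (a 0) (e 0), max_lt (ha 0) (he' 0)⟩)
    (fun n x => s ⟨max x.1 (max (a (n + 1)) (e (n + 1))),
      max_lt x.2 (max_lt (ha (n + 1)) (he' (n + 1)))⟩) n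
  have hE' : ∀ n, (ξ n).1 ∈ E := by
    intro n
    cases n with
    | zero => exact hs1 _
    | succ n => exact hs1 _
  have h0 : max (a 0) (e 0) < (ξ 0).1 := hs2 ⟨max (a 0) (e 0), max_lt (ha 0) (he' 0)⟩
  have hS : ∀ n, max (ξ n).1 (max (a (n + 1)) (e (n + 1))) < (ξ (n + 1)).1 := fun n =>
    hs2 ⟨max (ξ n).1 (max (a (n + 1)) (e (n + 1))),
      max_lt (ξ n).2 (max_lt (ha (n + 1)) (he' (n + 1)))⟩
  have hae : ∀ n, max (a n) (e n) < (ξ n).1 := by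
    intro n
    cases n with
    | zero => exact h0
    | succ n => exact (le_max_right _ _).trans_lt (hS n)
  refine ⟨fun n => (ξ n).1, strictMono_nat_of_lt_succ fun n => (le_max_left _ _).trans_lt (hS n),
    hE', fun n => (ξ n).2, fun n => (le_max_left _ _).trans_lt (hae n), fun γ hγ => ?_⟩
  have h1 : γ ∈ Set.range e := by rw [← he]; exact hγ
  obtain ⟨n, rfl⟩ := h1
  exact ⟨n, (le_max_right _ _).trans_lt (hae n)⟩

/-! ### Coding sequences -/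

variable {ψ : Fm} {A : Set Om}

/-- A coding sequence `x` of length `len` -/
structure Good (ψ : Fm) (A : Set Om) (len : Om) (x : Om → ℕ → Prop) : Prop where
  bits : ∀ ξ < len, (x ξ (Nat.pair 0 0) ↔ ξ ∈ A)
  ne : ∀ ξ < len, ∃ m, x ξ m
  inj : ∀ ξ < len, ∀ η < len, x ξ = x η → ξ = η
  leg : ∀ l ≤ len, ∃ b, Leg ψ A l x b

/-- The coding sequences -/
structure U (ψ : Fm) (A : Set Om) where
  len : Om
  x : Om → ℕ → Prop
  good : Good ψ A len x

instance : Preorder (U ψ A) where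
  le u' u := u.len ≤ u'.len ∧ ∀ ξ < u.len, u'.x ξ = u.x ξ
  le_refl _ := ⟨le_rfl, fun _ _ => rfl⟩
  le_trans a b c h h' := ⟨h'.1.trans h.1, fun ξ hξ => (h.2 ξ (hξ.trans_le h'.1)).trans (h'.2 ξ hξ)⟩

theorem U.le_len {u' u : U ψ A} (h : u' ≤ u) : u.len ≤ u'.len := h.1
theorem U.le_x {u' u : U ψ A} (h : u' ≤ u) {ξ : Om} (hξ : ξ < u.len) : u'.x ξ = u.x ξ := h.2 ξ hξ

/-- the value with the given components -/
def mkX (a : Prop) (Kc E T F N : ℕ → Prop) : ℕ → Prop := fun i =>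
  (i = Nat.pair 0 0 ∧ a) ∨ (i.unpair.1 = 1 ∧ Kc i.unpair.2) ∨ (i.unpair.1 = 2 ∧ E i.unpair.2) ∨
    (i.unpair.1 = 3 ∧ T i.unpair.2) ∨ (i.unpair.1 = 4 ∧ F i.unpair.2) ∨
    (i.unpair.1 = 5 ∧ N i.unpair.2) ∨ i = Nat.pair 6 0

section

variable {a : Prop} {Kc E T F N : ℕ → Prop}

theorem mkX_0 : mkX a Kc E T F N (Nat.pair 0 0) ↔ a := by
  simp [mkX]
theorem mkX_1 (c : ℕ) : mkX a Kc E T F N (Nat.pair 1 c) ↔ Kc c := by
  simp [mkX, Nat.pair_eq_pair]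
theorem mkX_2 (c : ℕ) : mkX a Kc E T F N (Nat.pair 2 c) ↔ E c := by
  simp [mkX, Nat.pair_eq_pair]
theorem mkX_3 (c : ℕ) : mkX a Kc E T F N (Nat.pair 3 c) ↔ T c := by
  simp [mkX, Nat.pair_eq_pair]
theorem mkX_4 (c : ℕ) : mkX a Kc E T F N (Nat.pair 4 c) ↔ F c := by
  simp [mkX, Nat.pair_eq_pair]
theorem mkX_5 (c : ℕ) : mkX a Kc E T F N (Nat.pair 5 c) ↔ N c := by
  simp [mkX, Nat.pair_eq_pair]
theorem mkX_6 : mkX a Kc E T F N (Nat.pair 6 0) := by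
  simp [mkX]

end

theorem leg_succ (γ : Om) (x : Om → ℕ → Prop) :
    Leg ψ A (osucc γ) x (fun i => x γ i.unpair.2) := by
  refine ⟨⟨fun n => Or.inr ⟨γ, lt_osucc γ, fun m => ?_⟩, fun η hη => ⟨0, γ, ?_, lt_osucc γ, ?_⟩⟩,
    Or.inl ?_⟩
  · simp only [Nat.unpair_pair]
  · exact not_lt.mpr (lt_osucc_iff.mp hη)
  · intro m; simp only [Nat.unpair_pair]
  · intro n m
    simp only [Nat.unpair_pair]
    constructor
    · intro h
      exact ⟨γ, lt_osucc γ, fun ν hν => not_lt.mpr (lt_osucc_iff.mp hν), h⟩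
    · rintro ⟨μ, h1, h2, h3⟩
      have h4 : μ = γ := le_antisymm (lt_osucc_iff.mp h1) (not_lt.mp (h2 γ (lt_osucc γ)))
      rw [← h4]; exact h3

theorem leg_zero (x : Om → ℕ → Prop) : Leg ψ A default x (fun _ => False) := by
  refine ⟨⟨fun n => Or.inl fun m => id, fun η hη => absurd hη (not_lt.mpr (default_le η))⟩,
    Or.inl ?_⟩
  intro n m
  constructor
  · exact False.elim
  · rintro ⟨μ, h1, -⟩
    exact absurd h1 (not_lt.mpr (default_le μ))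

theorem le_osucc_cases {l γ : Om} (h : l ≤ osucc γ) : l ≤ γ ∨ l = osucc γ := by
  rcases h.lt_or_eq with h1 | h1
  · exact Or.inl (lt_osucc_iff.mp h1)
  · exact Or.inr h1

/-- Adding one term with given components. -/
theorem U.add (u : U ψ A) (Kc E F N : ℕ → Prop) : ∃ u' ≤ u, u'.len = osucc u.len ∧
    (∀ c, u'.x u.len (Nat.pair 1 c) ↔ Kc c) ∧ (∀ c, u'.x u.len (Nat.pair 2 c) ↔ E c) ∧
    (∀ c, u'.x u.len (Nat.pair 4 c) ↔ F c) ∧ (∀ c, u'.x u.len (Nat.pair 5 c) ↔ N c) := by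
  classical
  obtain ⟨e, he⟩ : ∃ e : ℕ → Om, ∀ ξ < u.len, ∃ n, e n = ξ := by
    by_cases hne : ∃ γ, γ < u.len
    · obtain ⟨e, he⟩ := (om_Iio u.len).exists_eq_range hne
      refine ⟨e, fun ξ hξ => ?_⟩
      have : ξ ∈ Set.range e := by rw [← he]; exact hξ
      exact this
    · push Not at hne
      exact ⟨fun _ => default, fun ξ hξ => absurd hξ (not_lt.mpr (hne ξ))⟩
  let T : ℕ → Prop := fun j => ¬ u.x (e j) (Nat.pair 3 j)
  let X : ℕ → Prop := mkX (u.len ∈ A) Kc E T F N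
  have hX : ∀ ξ < u.len, X ≠ u.x ξ := by
    intro ξ hξ h
    obtain ⟨n, hn⟩ := he ξ hξ
    have h1 : X (Nat.pair 3 n) ↔ T n := mkX_3 n
    rw [h] at h1
    have h2 : T n ↔ ¬ u.x ξ (Nat.pair 3 n) := by
      show (¬ u.x (e n) (Nat.pair 3 n)) ↔ _
      rw [hn]
    rw [h2] at h1
    exact (iff_not_self h1)
  let x' : Om → ℕ → Prop := Function.update u.x u.len X
  have hlt : ∀ ξ < u.len, x' ξ = u.x ξ := fun ξ hξ => Function.update_of_ne hξ.ne _ _
  have heq : x' u.len = X := Function.update_self _ _ _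
  have hg : Good ψ A (osucc u.len) x' := by
    refine ⟨?_, ?_, ?_, ?_⟩
    · intro ξ hξ
      rcases (lt_osucc_iff.mp hξ).lt_or_eq with h | rfl
      · rw [hlt ξ h]; exact u.good.bits ξ h
      · rw [heq]; exact mkX_0
    · intro ξ hξ
      rcases (lt_osucc_iff.mp hξ).lt_or_eq with h | rfl
      · rw [hlt ξ h]; exact u.good.ne ξ h
      · rw [heq]; exact ⟨_, mkX_6⟩
    · intro ξ hξ η hη h
      rcases (lt_osucc_iff.mp hξ).lt_or_eq with h1 | h1 <;>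
        rcases (lt_osucc_iff.mp hη).lt_or_eq with h2 | h2
      · rw [hlt ξ h1, hlt η h2] at h; exact u.good.inj ξ h1 η h2 h
      · rw [h2, hlt ξ h1, heq] at h; exact absurd h.symm (hX ξ h1)
      · rw [h1, hlt η h2, heq] at h; exact absurd h (hX η h2)
      · rw [h1, h2]
    · intro l hl
      rcases le_osucc_cases hl with h | rfl
      · obtain ⟨b, hb⟩ := u.good.leg l h
        exact ⟨b, leg_congr (fun ξ hξ => (hlt ξ (hξ.trans_le h)).symm) hb⟩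
      · exact ⟨_, leg_succ _ _⟩
  refine ⟨⟨osucc u.len, x', hg⟩, ⟨(lt_osucc _).le, hlt⟩, rfl, ?_, ?_, ?_, ?_⟩
  · intro c; show x' u.len _ ↔ _; rw [heq]; exact mkX_1 c
  · intro c; show x' u.len _ ↔ _; rw [heq]; exact mkX_2 c
  · intro c; show x' u.len _ ↔ _; rw [heq]; exact mkX_4 c
  · intro c; show x' u.len _ ↔ _; rw [heq]; exact mkX_5 c

/-- The union of a decreasing sequence of conditions. -/
theorem U.union {δ : Om} (v : ℕ → U ψ A) (hv : ∀ n, v (n + 1) ≤ v n) (hlen : ∀ n, (v n).len < δ)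
    (hcof : ∀ γ < δ, ∃ n, γ < (v n).len) (x : Om → ℕ → Prop)
    (hx : ∀ n, ∀ ξ < (v n).len, x ξ = (v n).x ξ) (hleg : ∃ b, Leg ψ A δ x b) :
    ∃ w : U ψ A, w.len = δ ∧ w.x = x ∧ ∀ n, w ≤ v n := by
  have hg : Good ψ A δ x := by
    refine ⟨?_, ?_, ?_, ?_⟩
    · intro ξ hξ
      obtain ⟨n, hn⟩ := hcof ξ hξ
      rw [hx n ξ hn]; exact (v n).good.bits ξ hn
    · intro ξ hξ
      obtain ⟨n, hn⟩ := hcof ξ hξ
      rw [hx n ξ hn]; exact (v n).good.ne ξ hn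
    · intro ξ hξ η hη h
      obtain ⟨n, hn⟩ := hcof (max ξ η) (max_lt hξ hη)
      rw [hx n ξ ((le_max_left _ _).trans_lt hn), hx n η ((le_max_right _ _).trans_lt hn)] at h
      exact (v n).good.inj ξ ((le_max_left _ _).trans_lt hn) η ((le_max_right _ _).trans_lt hn) h
    · intro l hl
      rcases hl.lt_or_eq with h | rfl
      · obtain ⟨n, hn⟩ := hcof l h
        obtain ⟨b, hb⟩ := (v n).good.leg l hn.le
        exact ⟨b, leg_congr (fun ξ hξ => (hx n ξ (hξ.trans hn)).symm) hb⟩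
      · exact hleg
  exact ⟨⟨δ, x, hg⟩, rfl, rfl, fun n => ⟨(hlen n).le, fun ξ hξ => hx n ξ hξ⟩⟩

/-- the union of the sequences -/
theorem exists_union (v : ℕ → U ψ A) (hv : ∀ n, v (n + 1) ≤ v n) :
    ∃ x : Om → ℕ → Prop, ∀ n, ∀ ξ < (v n).len, x ξ = (v n).x ξ := by
  classical
  have hmono : ∀ n m, n ≤ m → v m ≤ v n := by
    intro n m h
    induction m, h using Nat.le_induction with
    | base => exact le_rfl
    | succ m _ ih => exact (hv m).trans ih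
  refine ⟨fun ξ => if h : ∃ n, ξ < (v n).len then (v (Nat.find h)).x ξ else fun _ => False, ?_⟩
  intro n ξ hξ
  have h : ∃ n, ξ < (v n).len := ⟨n, hξ⟩
  simp only [dif_pos h]
  exact ((hmono _ _ (Nat.find_min' h hξ)).2 ξ (Nat.find_spec h)).symm

/-- The pattern making a limit ordinal legal. -/
structure Pattern (δ : Om) (x : Om → ℕ → Prop) (ξ : ℕ → Om) (c : ℕ) (R : Om → Prop) : Prop where
  mono : StrictMono ξ
  lt : ∀ n, ξ n < δ
  cof : ∀ γ < δ, ∃ n, γ < ξ n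
  inR : ∀ n, R (ξ n)
  col : ∀ n, x (ξ n) (Nat.pair 1 c)
  app : ∀ n i, x (ξ n) (Nat.pair 2 i) ↔
    (i.unpair.1 < n ∧ i.unpair.2 < n ∧ x (ξ i.unpair.1) i.unpair.2)
  only : ∃ η < δ, ∀ ζ, η ≤ ζ → ζ < δ → R ζ → x ζ (Nat.pair 1 c) → ∃ n, ζ = ξ n

theorem Pattern.ql {δ : Om} {x : Om → ℕ → Prop} {ξ : ℕ → Om} {c : ℕ} {R : Om → Prop}
    (h : Pattern δ x ξ c R) : QL δ x (fun i => x (ξ i.unpair.1) i.unpair.2) := by
  refine ⟨fun n => Or.inr ⟨ξ n, h.lt n, fun m => by simp only [Nat.unpair_pair]⟩, fun η hη => ?_⟩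
  obtain ⟨n, hn⟩ := h.cof η hη
  exact ⟨n, ξ n, not_lt.mpr hn.le, h.lt n, fun m => by simp only [Nat.unpair_pair]⟩

theorem Pattern.lim {δ : Om} {x : Om → ℕ → Prop} {ξ : ℕ → Om} {c : ℕ} {R : Om → Prop}
    (h : Pattern δ x ξ c R) (i : ℕ) : x (ξ i.unpair.1) i.unpair.2 ↔
      ∃ η, η < δ ∧ ∀ ζ, ¬ ζ < η ∧ ζ < δ ∧ R ζ ∧ x ζ (Nat.pair 1 c) → x ζ (Nat.pair 2 i) := by
  constructor
  · intro hi
    obtain ⟨η, hη, ho⟩ := h.only
    refine ⟨max η (ξ (max i.unpair.1 i.unpair.2 + 1)), max_lt hη (h.lt _), ?_⟩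
    rintro ζ ⟨h1, h2, h3, h4⟩
    have h5 := not_lt.mp h1
    obtain ⟨n, rfl⟩ := ho ζ ((le_max_left _ _).trans h5) h2 h3 h4
    have h6 : max i.unpair.1 i.unpair.2 + 1 ≤ n := h.mono.le_iff_le.mp ((le_max_right _ _).trans h5)
    rw [h.app]
    exact ⟨by omega, by omega, hi⟩
  · rintro ⟨η, hη, h1⟩
    obtain ⟨n, hn⟩ := h.cof η hη
    have h2 : ξ n ≤ ξ (max n (max i.unpair.1 i.unpair.2 + 1)) := h.mono.monotone (le_max_left _ _)
    have h3 := h1 (ξ (max n (max i.unpair.1 i.unpair.2 + 1)))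
      ⟨not_lt.mpr (hn.le.trans h2), h.lt _, h.inR _, h.col _⟩
    rw [h.app] at h3
    exact h3.2.2

theorem Pattern.leg3 {δ : Om} {x : Om → ℕ → Prop} {ξ : ℕ → Om} {c : ℕ}
    (h : Pattern δ x ξ c (fun _ => True)) : ∃ b, Leg ψ A δ x b := by
  refine ⟨_, h.ql, Or.inr (Or.inl ⟨c, fun i => (h.lim i).trans ?_⟩)⟩
  simp only [true_and]

theorem Pattern.leg2 {δ : Om} {x : Om → ℕ → Prop} {ξ : ℕ → Om} {c : ℕ} {R : Om → ℕ → Prop}
    (hR : Bdd R) (hR' : Holds ψ δ (initA A δ) R)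
    (h : Pattern δ x ξ c (fun ζ => R ζ 0)) : ∃ b, Leg ψ A δ x b :=
  ⟨_, h.ql, Or.inr (Or.inr ⟨R, hR, hR', Or.inr ⟨c, fun i => h.lim i⟩⟩)⟩

theorem leg1 {δ : Om} {x : Om → ℕ → Prop} {R : Om → ℕ → Prop}
    (hR : Bdd R) (hR' : Holds ψ δ (initA A δ) R) (hL : Ladder δ R) : ∃ b, Leg ψ A δ x b := by
  obtain ⟨ξ, hmono, hlt, hcof, hiff⟩ := hL
  refine ⟨fun i => x (ξ i.unpair.1) i.unpair.2, ⟨fun n => Or.inr ⟨ξ n, hlt n, fun m => ?_⟩,
    fun η hη => ?_⟩, Or.inr (Or.inr ⟨R, hR, hR', Or.inl fun n m => ?_⟩)⟩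
  · simp only [Nat.unpair_pair]
  · obtain ⟨n, hn⟩ := hcof η hη
    exact ⟨n, ξ n, not_lt.mpr hn.le, hlt n, fun m => by simp only [Nat.unpair_pair]⟩
  · simp only [Nat.unpair_pair]
    constructor
    · intro h
      exact ⟨ξ n, hlt n, (hiff _ _).mpr rfl, h⟩
    · rintro ⟨ζ, h1, h2, h3⟩
      rw [(hiff ζ n).mp h2] at h3
      exact h3

/-- Extending a condition to a given length, avoiding finitely many colours. -/
theorem U.ext : ∀ (β : Om) (u : U ψ A), u.len ≤ β → ∀ F : Finset ℕ, ∃ u' ≤ u, u'.len = β ∧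
    ∀ ξ, u.len ≤ ξ → ξ < β → ∀ c ∈ F, ¬ u'.x ξ (Nat.pair 1 c) := by
  classical
  intro β
  induction β using WellFoundedLT.induction with
  | _ β ih =>
  intro u hu F
  rcases hu.lt_or_eq with hu | rfl
  swap
  · exact ⟨u, le_rfl, rfl, fun ξ h1 h2 => absurd h2 (not_lt.mpr h1)⟩
  by_cases hlim : ∀ γ < β, osucc γ < β
  · -- limit case
    obtain ⟨c, hc⟩ := Finset.exists_notMem F
    obtain ⟨ξ, hξm, -, hξβ, hξa, hξc⟩ := exists_seq ⟨_, hu⟩ (E := Set.univ)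
      (fun γ hγ => ⟨osucc γ, trivial, lt_osucc γ, hlim γ hγ⟩) (fun _ => u.len) (fun _ => hu)
    -- the first step
    obtain ⟨u0, hu0, hl0, ha0⟩ := ih (ξ 0) (hξβ 0) u (hξa 0).le (insert c F)
    have hstep : ∀ n (w : {w : U ψ A // w.len = ξ n}), ∃ w' : {w' : U ψ A // w'.len = ξ (n + 1)},
        w'.1 ≤ w.1 ∧ w'.1.x (ξ n) (Nat.pair 1 c) ∧
        (∀ i, w'.1.x (ξ n) (Nat.pair 2 i) ↔
          (i.unpair.1 < n ∧ i.unpair.2 < n ∧ w.1.x (ξ i.unpair.1) i.unpair.2)) ∧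
        (∀ d ∈ F, ¬ w'.1.x (ξ n) (Nat.pair 1 d)) ∧
        ∀ ζ, ξ n < ζ → ζ < ξ (n + 1) → ∀ d ∈ insert c F, ¬ w'.1.x ζ (Nat.pair 1 d) := by
      rintro n ⟨w, hw⟩
      obtain ⟨w1, hw1, hl1, hc1, he1, -, -⟩ := w.add (fun d => d = c)
        (fun i => i.unpair.1 < n ∧ i.unpair.2 < n ∧ w.x (ξ i.unpair.1) i.unpair.2)
        (fun _ => False) (fun _ => False)
      rw [hw] at hl1 hc1 he1
      obtain ⟨w2, hw2, hl2, ha2⟩ := ih (ξ (n + 1)) (hξβ (n + 1)) w1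
        (hl1 ▸ osucc_le (hξm (Nat.lt_succ_self n))) (insert c F)
      have hx : w2.x (ξ n) = w1.x (ξ n) := hw2.2 _ (hl1 ▸ lt_osucc _)
      refine ⟨⟨w2, hl2⟩, hw2.trans hw1, ?_, ?_, ?_, ?_⟩
      · show w2.x (ξ n) _
        rw [hx, hc1]
      · intro i
        show w2.x (ξ n) _ ↔ _
        rw [hx, he1]
      · intro d hd
        show ¬ w2.x (ξ n) _
        rw [hx, hc1]
        rintro rfl
        exact hc hd
      · intro ζ h1 h2
        exact ha2 ζ (hl1 ▸ osucc_le h1) h2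
    choose nx hnx using hstep
    let v : ∀ n, {w : U ψ A // w.len = ξ n} := fun n => Nat.rec ⟨u0, hl0⟩ (fun n w => nx n w) n
    have hv : ∀ n, v (n + 1) = nx n (v n) := fun n => rfl
    have hvle : ∀ n, (v (n + 1)).1 ≤ (v n).1 := fun n => by rw [hv]; exact (hnx n (v n)).1
    obtain ⟨x, hx⟩ := exists_union (fun n => (v n).1) hvle
    have hxn : ∀ n, x (ξ n) = (v (n + 1)).1.x (ξ n) := fun n =>
      hx (n + 1) (ξ n) (by rw [(v (n + 1)).2]; exact hξm (Nat.lt_succ_self n))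
    have hbetween : ∀ ζ, ξ 0 < ζ → ζ < β → (∀ n, ζ ≠ ξ n) → ∀ d ∈ insert c F,
        ¬ x ζ (Nat.pair 1 d) := by
      intro ζ h0 h1 h2 d hd
      have hex : ∃ n, ζ < ξ n := hξc ζ h1
      have hn := Nat.find_spec hex
      obtain ⟨k, hk⟩ : ∃ k, Nat.find hex = k + 1 := by
        refine Nat.exists_eq_succ_of_ne_zero fun h3 => ?_
        rw [h3] at hn
        exact absurd h0 (not_lt.mpr hn.le)
      rw [hk] at hn
      have h4 : ξ k < ζ := by
        have h5 := Nat.find_min hex (m := k) (by omega)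
        rcases (not_lt.mp h5).lt_or_eq with h6 | h6
        · exact h6
        · exact absurd h6.symm (h2 k)
      rw [hx (k + 1) ζ (by rw [(v (k + 1)).2]; exact hn), hv]
      exact (hnx k (v k)).2.2.2.2 ζ h4 hn d hd
    have hpat : Pattern β x ξ c (fun _ => True) := by
      refine ⟨hξm, hξβ, hξc, fun _ => trivial, fun n => ?_, fun n i => ?_, ξ 0, hξβ 0, ?_⟩
      · rw [hxn, hv]; exact (hnx n (v n)).2.1
      · rw [hxn, hv, (hnx n (v n)).2.2.1 i]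
        refine and_congr_right fun h1 => and_congr_right fun _ => ?_
        rw [hx n (ξ i.unpair.1) (by rw [(v n).2]; exact hξm h1)]
      · intro ζ h1 h2 _ h3
        by_contra hcon
        push Not at hcon
        rcases h1.lt_or_eq with h4 | h4
        · exact hbetween ζ h4 h2 hcon c (Finset.mem_insert_self _ _) h3
        · exact hcon 0 h4.symm
    obtain ⟨w, hwl, hwx, hwle⟩ := U.union (fun n => (v n).1) hvle
      (fun n => by show (v n).1.len < β; rw [(v n).2]; exact hξβ n)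
      (fun γ hγ => by
        obtain ⟨n, hn⟩ := hξc γ hγ
        exact ⟨n, by show γ < (v n).1.len; rw [(v n).2]; exact hn⟩) x hx hpat.leg3
    refine ⟨w, (hwle 0).trans hu0, hwl, ?_⟩
    intro ζ h1 h2 d hd
    rcases lt_trichotomy ζ (ξ 0) with h3 | h3 | h3
    · rw [(hwle 0).2 ζ (by show ζ < u0.len; rw [hl0]; exact h3)]
      exact ha0 ζ h1 h3 d (Finset.mem_insert_of_mem hd)
    · rw [hwx, h3, hxn, hv]
      exact (hnx 0 (v 0)).2.2.2.1 d hd
    · rw [hwx]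
      by_cases h4 : ∃ n, ζ = ξ n
      · obtain ⟨n, rfl⟩ := h4
        rw [hxn, hv]
        exact (hnx n (v n)).2.2.2.1 d hd
      · push Not at h4
        exact hbetween ζ h3 h2 h4 d (Finset.mem_insert_of_mem hd)
  · -- successor case
    push Not at hlim
    obtain ⟨γ, hγ, hγ'⟩ := hlim
    have hβ : β = osucc γ := le_antisymm hγ' (osucc_le hγ)
    obtain ⟨u1, hu1, hl1, ha1⟩ := ih γ hγ u (lt_osucc_iff.mp (hβ ▸ hu)) F
    obtain ⟨u2, hu2, hl2, hc2, -⟩ := u1.add (fun _ => False) (fun _ => False) (fun _ => False)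
      (fun _ => False)
    refine ⟨u2, hu2.trans hu1, by rw [hl2, hl1, hβ], ?_⟩
    intro ξ h1 h2 c hc
    rw [hβ, lt_osucc_iff] at h2
    rcases h2.lt_or_eq with h3 | rfl
    · rw [hu2.2 ξ (hl1 ▸ h3)]
      exact ha1 ξ h1 h3 c hc
    · rw [← hl1, hc2]
      exact id

end Pool.Agent.Helper97.LC
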