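import Mathlib
import Pool.Agent.Helper97_LC.Seq

/-! # The fusion lemma -/

set_option autoImplicit false

namespace Pool.Agent.Helper97.LC

variable {ψ : Fm} {A : Set Om}

/-- For every `f`, at almost all `δ` there is a relation in the family which is a ladder on `δ`, or
a cofinal subset of `δ` almost contained in the set of the closure points of `f`. -/
def Guess (ψ : Fm) (A : Set Om) : Prop :=
  ∀ f : Om → Om, ∃ g : Om → Om, ∀ δ, ClosedUnder g δ → ∃ R : Om → ℕ → Prop, Bdd R ∧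
    Holds ψ δ (initA A δ) R ∧ (Ladder δ R ∨ AlmostIn {γ | ClosedUnder f γ} δ R)

/-- The basic extension. -/
theorem U.tex (u : U ψ A) (ξ : Om) (d : Finset ℕ) : ∃ u' ≤ u, ξ < u'.len ∧
    (u.len ≤ ξ → (∀ ζ, u.len ≤ ζ → ζ < ξ → ¬ u'.x ζ (Nat.pair 1 0)) ∧ u'.len = osucc ξ ∧
      u'.x ξ (Nat.pair 1 0) ∧ ∀ i, u'.x ξ (Nat.pair 2 i) ↔ i ∈ d) := by
  by_cases h : u.len ≤ ξ
  · obtain ⟨u1, hu1, hl1, ha1⟩ := U.ext ξ u h {0}
    obtain ⟨u2, hu2, hl2, hc2, he2, -, -⟩ := u1.add (fun c => c = 0) (fun i => i ∈ d)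
      (fun _ => False) (fun _ => False)
    rw [hl1] at hl2 hc2 he2
    refine ⟨u2, hu2.trans hu1, hl2 ▸ lt_osucc ξ, fun _ => ⟨?_, hl2, (hc2 0).mpr rfl, he2⟩⟩
    intro ζ h1 h2
    rw [hu2.2 ζ (hl1 ▸ h2)]
    exact ha1 ζ h1 h2 0 (Finset.mem_singleton_self 0)
  · exact ⟨u, le_rfl, not_le.mp h, fun h' => absurd h' h⟩

theorem fusion (hG : Guess ψ A) (T : Om → ℕ → Set (U ψ A))
    (hopen : ∀ j k (u u' : U ψ A), u ∈ T j k → u' ≤ u → u' ∈ T j k)
    (hdense : ∀ j k (u : U ψ A), ∃ u' ≤ u, u' ∈ T j k) {S : Set Om} (hS : IsStationary S)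
    (u0 : U ψ A) :
    ∃ u' ≤ u0, u'.len ∈ S ∧ (∃ γ, γ < u'.len) ∧ ∀ j < u'.len, ∀ k, u' ∈ T j k := by
  classical
  choose t ht1 ht2 ht3 using fun (u : U ψ A) (ξ : Om) (d : Finset ℕ) => u.tex ξ d
  choose e he1 he2 using hdense
  -- the runs
  let ap : U ψ A → Om × (Finset ℕ ⊕ ℕ) → U ψ A := fun u op =>
    match op.2 with
    | .inl d => t u op.1 d
    | .inr k => e op.1 k u
  let run : List (Om × (Finset ℕ ⊕ ℕ)) → U ψ A := fun l => l.foldr (fun op u => ap u op) u0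
  have hbound : ∀ i : Om, ∃ β : Om, ∀ l : List (Om × (Finset ℕ ⊕ ℕ)), (∀ op ∈ l, op.1 ≤ i) →
      (run l).len < β := by
    intro i
    have hc : Countable {op : Om × (Finset ℕ ⊕ ℕ) // op.1 ≤ i} := by
      have h1 : Countable {a : Om // a ≤ i} := by
        have h2 : (Set.Iio i ∪ {i}).Countable := (om_Iio i).union (Set.countable_singleton i)
        have h3 : {a : Om | a ≤ i} ⊆ Set.Iio i ∪ {i} := fun a ha => by
          rcases (show a ≤ i from ha).lt_or_eq with h | h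
          · exact Or.inl h
          · exact Or.inr h
        exact (h2.mono h3).to_subtype
      have h4 : Function.Injective (fun op : {op : Om × (Finset ℕ ⊕ ℕ) // op.1 ≤ i} =>
          ((⟨op.1.1, op.2⟩, op.1.2) : {a : Om // a ≤ i} × (Finset ℕ ⊕ ℕ))) := by
        rintro ⟨⟨a, b⟩, h⟩ ⟨⟨a', b'⟩, h'⟩ heq
        simp only [Prod.mk.injEq, Subtype.mk.injEq] at heq
        obtain ⟨rfl, rfl⟩ := heq
        rfl
      exact h4.countable
    obtain ⟨β, hβ⟩ := om_bdd_fun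
      (fun l : List {op : Om × (Finset ℕ ⊕ ℕ) // op.1 ≤ i} => (run (l.map Subtype.val)).len)
    refine ⟨β, fun l hl => ?_⟩
    have h5 : (l.attach.map fun op => (⟨op.1, hl op.1 op.2⟩ :
        {op : Om × (Finset ℕ ⊕ ℕ) // op.1 ≤ i})).map Subtype.val = l := by
      rw [List.map_map]
      exact List.attach_map_subtype_val l
    have := hβ (l.attach.map fun op => ⟨op.1, hl op.1 op.2⟩)
    rwa [h5] at this
  choose f hf using hbound
  obtain ⟨g, hg⟩ := hG f
  obtain ⟨δ, hδS, hδ0, hδc⟩ := stationary_iff.mp hS fun i => max (f i) (g i)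
  have hδf : ∀ i < δ, f i < δ := fun i hi => (le_max_left _ _).trans_lt (hδc i hi)
  have hδg : ClosedUnder g δ := ⟨hδ0, fun i hi => (le_max_right _ _).trans_lt (hδc i hi)⟩
  obtain ⟨R, hR, hR', hRL⟩ := hg δ hδg
  obtain ⟨i0, hi0⟩ := hδ0
  have hu0 : u0.len < δ := (hf i0 [] (fun _ h => absurd h (List.not_mem_nil))).trans (hδf i0 hi0)
  have hlim : ∀ γ < δ, ∃ ξ, γ < ξ ∧ ξ < δ := by
    intro γ hγ
    refine ⟨f γ, ?_, hδf γ hγ⟩
    have h1 := hf γ [(γ, .inl ∅)] (by simp)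
    exact (ht2 u0 γ ∅).trans h1
  -- the enumeration of the tasks
  obtain ⟨τ, hτ1, hτ2⟩ : ∃ τ : ℕ → Om × ℕ, (∀ n, (τ n).1 < δ) ∧
      ∀ j < δ, ∀ k, ∃ n, τ n = (j, k) := by
    have h1 : (Set.Iio δ ×ˢ (Set.univ : Set ℕ)).Countable := (om_Iio δ).prod (Set.countable_univ)
    obtain ⟨τ, hτ⟩ := h1.exists_eq_range ⟨(i0, 0), hi0, trivial⟩
    refine ⟨τ, fun n => ?_, fun j hj k => ?_⟩
    · have h2 : τ n ∈ Set.range τ := ⟨n, rfl⟩
      rw [← hτ] at h2
      exact h2.1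
    · have h2 : (j, k) ∈ Set.range τ := by
        rw [← hτ]
        exact ⟨hj, trivial⟩
      exact h2
  -- the places
  obtain ⟨ξ, hξm, hξδ, hξa, hξu, hξc, hξE⟩ : ∃ ξ : ℕ → Om, StrictMono ξ ∧ (∀ n, ξ n < δ) ∧
      (∀ n, (τ n).1 < ξ n) ∧ u0.len < ξ 0 ∧ (∀ γ < δ, ∃ n, γ < ξ n) ∧
      (Ladder δ R ∨ ((∀ n, R (ξ n) 0) ∧ ∀ ζ, ξ 0 ≤ ζ → R ζ 0 → ClosedUnder f ζ)) := by
    rcases hRL with hL | ⟨hA1, hA2, η, hη, hA3⟩
    · obtain ⟨ξ, h1, -, h3, h4, h5⟩ := exists_seq ⟨i0, hi0⟩ (E := Set.univ)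
        (fun γ hγ => (hlim γ hγ).imp fun ξ h => ⟨trivial, h⟩)
        (fun n => max (τ n).1 u0.len) (fun n => max_lt (hτ1 n) hu0)
      exact ⟨ξ, h1, h3, fun n => (le_max_left _ _).trans_lt (h4 n),
        (le_max_right _ _).trans_lt (h4 0), h5, Or.inl hL⟩
    · obtain ⟨ξ, h1, h2, h3, h4, h5⟩ := exists_seq ⟨i0, hi0⟩ (E := {ζ | R ζ 0 ∧ ζ < δ})
        (fun γ hγ => by
          obtain ⟨ζ, h1, h2⟩ := hA2 γ hγ
          exact ⟨ζ, ⟨h2, hA1 ζ h2⟩, h1, hA1 ζ h2⟩)
        (fun n => max (max (τ n).1 u0.len) η) (fun n => max_lt (max_lt (hτ1 n) hu0) hη)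
      refine ⟨ξ, h1, h3, fun n => ((le_max_left _ _).trans (le_max_left _ _)).trans_lt (h4 n),
        ((le_max_right _ _).trans (le_max_left _ _)).trans_lt (h4 0), h5,
        Or.inr ⟨fun n => (h2 n).1, fun ζ hζ hζR => hA3 ζ ?_ hζR⟩⟩
      exact ((le_max_right _ _).trans_lt (h4 0)).le.trans hζ
  -- the recursion
  let d : ℕ → List (Om × (Finset ℕ ⊕ ℕ)) → Finset ℕ := fun n l =>
    ((Finset.range n ×ˢ Finset.range n).image fun p => Nat.pair p.1 p.2).filter
      fun i => (run l).x (ξ i.unpair.1) i.unpair.2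
  have hd : ∀ n l i, i ∈ d n l ↔
      (i.unpair.1 < n ∧ i.unpair.2 < n ∧ (run l).x (ξ i.unpair.1) i.unpair.2) := by
    intro n l i
    simp only [d, Finset.mem_filter, Finset.mem_image, Finset.mem_product, Finset.mem_range,
      Prod.exists]
    constructor
    · rintro ⟨⟨a, b, ⟨ha, hb⟩, rfl⟩, h⟩
      simp only [Nat.unpair_pair] at h ⊢
      exact ⟨ha, hb, h⟩
    · rintro ⟨h1, h2, h3⟩
      exact ⟨⟨_, _, ⟨h1, h2⟩, Nat.pair_unpair i⟩, h3⟩
  let l : ℕ → List (Om × (Finset ℕ ⊕ ℕ)) := fun n => Nat.rec []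
    (fun n l => ((τ n).1, .inr (τ n).2) :: (ξ n, .inl (d n l)) :: l) n
  have hl : ∀ n, l (n + 1) = ((τ n).1, .inr (τ n).2) :: (ξ n, .inl (d n (l n))) :: l n :=
    fun n => rfl
  let v : ℕ → U ψ A := fun n => run (l n)
  have hv0 : v 0 = u0 := rfl
  have hvS : ∀ n, v (n + 1) = e (τ n).1 (τ n).2 (t (v n) (ξ n) (d n (l n))) := fun n => rfl
  have hidx : ∀ n, ∀ op ∈ l (n + 1), op.1 ≤ ξ n := by
    intro n
    induction n with
    | zero =>
      intro op hop
      rw [hl] at hop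
      rcases List.mem_cons.mp hop with rfl | hop
      · exact (hξa 0).le
      rcases List.mem_cons.mp hop with rfl | hop
      · exact le_rfl
      · exact absurd hop List.not_mem_nil
    | succ n ih =>
      intro op hop
      rw [hl] at hop
      rcases List.mem_cons.mp hop with rfl | hop
      · exact (hξa (n + 1)).le
      rcases List.mem_cons.mp hop with rfl | hop
      · exact le_rfl
      · exact (ih op hop).trans (hξm (Nat.lt_succ_self n)).le
  have hvle : ∀ n, v (n + 1) ≤ v n := fun n => by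
    rw [hvS]
    exact (he1 _ _ _).trans (ht1 _ _ _)
  have hvξ : ∀ n, ξ n < (v (n + 1)).len := fun n => by
    rw [hvS]
    exact (ht2 _ _ _).trans_le (he1 _ _ _).1
  have hvf : ∀ n, (v (n + 1)).len < f (ξ n) := fun n => hf (ξ n) (l (n + 1)) (hidx n)
  have hvδ : ∀ n, (v n).len < δ := by
    intro n
    cases n with
    | zero => exact hu0
    | succ n => exact (hvf n).trans (hδf _ (hξδ n))
  have hvmono : ∀ n m, n ≤ m → v m ≤ v n := by
    intro n m h
    induction m, h using Nat.le_induction with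
    | base => exact le_rfl
    | succ m _ ih => exact (hvle m).trans ih
  obtain ⟨x, hx⟩ := exists_union v hvle
  have hleg : ∃ b, Leg ψ A δ x b := by
    rcases hξE with hL | ⟨hE1, hE2⟩
    · exact leg1 hR hR' hL
    · have hlen : ∀ n, (v n).len ≤ ξ n := by
        intro n
        cases n with
        | zero => exact hξu.le
        | succ n =>
          exact ((hvf n).trans ((hE2 (ξ (n + 1)) (hξm.monotone (Nat.zero_le _)) (hE1 _)).2 (ξ n)
            (hξm (Nat.lt_succ_self n)))).le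
      have hts := fun n => ht3 (v n) (ξ n) (d n (l n)) (hlen n)
      have hxe : ∀ n, ∀ ζ ≤ ξ n, x ζ = (t (v n) (ξ n) (d n (l n))).x ζ := by
        intro n ζ hζ
        rw [hx (n + 1) ζ (hζ.trans_lt (hvξ n)), hvS]
        refine (he1 _ _ _).2 ζ ?_
        exact hζ.trans_lt (ht2 _ _ _)
      refine Pattern.leg2 (ξ := ξ) (c := 0) hR hR' ⟨hξm, hξδ, hξc, hE1, fun n => ?_, fun n i => ?_,
        ξ 0, hξδ 0, ?_⟩
      · rw [hxe n (ξ n) le_rfl]
        exact (hts n).2.2.1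
      · rw [hxe n (ξ n) le_rfl, (hts n).2.2.2 i, hd]
        refine and_congr_right fun h1 => and_congr_right fun _ => ?_
        show (v n).x _ _ ↔ _
        rw [hx n (ξ i.unpair.1)]
        exact (hvξ i.unpair.1).trans_le (hvmono (i.unpair.1 + 1) n h1).1
      · intro ζ h1 h2 h3 h4
        by_contra hcon
        push Not at hcon
        have hex : ∃ n, ζ < ξ n := hξc ζ h2
        have hn := Nat.find_spec hex
        obtain ⟨k, hk⟩ : ∃ k, Nat.find hex = k + 1 := by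
          refine Nat.exists_eq_succ_of_ne_zero fun h5 => ?_
          rw [h5] at hn
          exact absurd h1 (not_le.mpr hn)
        rw [hk] at hn
        have h5 : ξ k < ζ := by
          have h6 := Nat.find_min hex (m := k) (by omega)
          rcases (not_lt.mp h6).lt_or_eq with h7 | h7
          · exact h7
          · exact absurd h7.symm (hcon k)
        have h6 : (v (k + 1)).len < ζ := (hvf k).trans ((hE2 ζ h1 h3).2 (ξ k) h5)
        rw [hxe (k + 1) ζ hn.le] at h4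
        exact (hts (k + 1)).1 ζ h6.le hn h4
  obtain ⟨w, hwl, -, hwle⟩ := U.union v hvle hvδ (fun γ hγ => by
    obtain ⟨n, hn⟩ := hξc γ hγ
    exact ⟨n + 1, hn.trans (hvξ n)⟩) x hx hleg
  refine ⟨w, hwle 0, hwl ▸ hδS, ⟨i0, hwl ▸ hi0⟩, ?_⟩
  intro j hj k
  obtain ⟨n, hn⟩ := hτ2 j (hwl ▸ hj) k
  have h1 : v (n + 1) ∈ T j k := by
    rw [hvS, hn]
    exact he2 _ _ _
  exact hopen j k _ _ h1 (hwle (n + 1))

end Pool.Agent.Helper97.LC
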