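import Mathlib
import Pool.Agent.Helper97_LC.Fusion

/-! # The coding poset -/

set_option autoImplicit false

namespace Pool.Agent.Helper97.LC

open Pool.Agent.Helper669.Forcing

variable {ψ : Fm} {A : Set Om}

/-! ### Finite sets coded by numbers -/

/-- the finite set coded by `k` -/
def fs (k : ℕ) : Finset ℕ := (Finset.range (k + 1)).filter fun j => k.testBit j = true

theorem mem_fs {j k : ℕ} : j ∈ fs k ↔ k.testBit j = true := by
  simp only [fs, Finset.mem_filter, Finset.mem_range, and_iff_right_iff_imp]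
  intro h
  by_contra hcon
  have h1 : k < 2 ^ j := (by omega : k < j).trans Nat.lt_two_pow_self
  rw [Nat.testBit_lt_two_pow h1] at h
  exact absurd h (by simp)

theorem fs_surj (s : Finset ℕ) : ∃ k, fs k = s := by
  classical
  induction s using Finset.induction with
  | empty =>
    refine ⟨0, ?_⟩
    ext j
    simp [mem_fs]
  | insert a s _ ih =>
    obtain ⟨k, hk⟩ := ih
    refine ⟨k ||| 2 ^ a, ?_⟩
    ext j
    rw [mem_fs, Nat.testBit_or, Finset.mem_insert, Bool.or_eq_true, ← mem_fs, hk,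
      Nat.testBit_two_pow, decide_eq_true_eq]
    constructor
    · rintro (h | h)
      · exact Or.inr h
      · exact Or.inl h.symm
    · rintro (h | h)
      · exact Or.inr h.symm
      · exact Or.inl h

/-- `v` codes the first `k` digits of `b` -/
def Code (b : ℕ → Prop) (k v : ℕ) : Prop := ∀ i, v.testBit i = true ↔ (i < k ∧ b i)

theorem exists_code (b : ℕ → Prop) (k : ℕ) : ∃ v, Code b k v := by
  classical
  obtain ⟨v, hv⟩ := fs_surj ((Finset.range k).filter fun i => b i)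
  refine ⟨v, fun i => ?_⟩
  rw [← mem_fs, hv, Finset.mem_filter, Finset.mem_range]

/-- the almost disjoint family -/
def ad (b : (ℕ → Prop) × ℕ) : Set ℕ := {j | ∃ k v, Code b.1 k v ∧ j = Nat.pair b.2 (Nat.pair k v)}

/-! ### The poset -/

/-- The conditions: a countable coding sequence, a finite set of elements of the generic set of
numbers, and a finite set of promises. -/
structure Cnd (ψ : Fm) (A : Set Om) where
  u : U ψ A
  s : Finset ℕ
  B : Finset ((ℕ → Prop) × ℕ)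
  ok : ∀ b ∈ B, ∃ l < u.len, Leg ψ A l u.x b.1 ∧ u.x l b.2

instance : Preorder (Cnd ψ A) where
  le q p := q.u ≤ p.u ∧ p.s ⊆ q.s ∧ p.B ⊆ q.B ∧ ∀ j ∈ q.s, j ∉ p.s → ∀ b ∈ p.B, j ∉ ad b
  le_refl p := ⟨le_rfl, Finset.Subset.refl _, Finset.Subset.refl _, fun j h h' => absurd h h'⟩
  le_trans a b c h h' := by
    refine ⟨h.1.trans h'.1, h'.2.1.trans h.2.1, h'.2.2.1.trans h.2.2.1, ?_⟩
    intro j hj hjc d hd
    by_cases hjb : j ∈ b.s
    · exact h'.2.2.2 j hjb hjc d hd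
    · exact h.2.2.2 j hj hjb d (h'.2.2.1 hd)

theorem ok_mono {u u' : U ψ A} (h : u' ≤ u) {b : (ℕ → Prop) × ℕ}
    (hb : ∃ l < u.len, Leg ψ A l u.x b.1 ∧ u.x l b.2) :
    ∃ l < u'.len, Leg ψ A l u'.x b.1 ∧ u'.x l b.2 := by
  obtain ⟨l, h1, h2, h3⟩ := hb
  refine ⟨l, h1.trans_le h.1, leg_congr (fun ξ hξ => (h.2 ξ (hξ.trans h1)).symm) h2, ?_⟩
  rw [h.2 l h1]
  exact h3

/-- changing the sequence -/
def Cnd.withU (p : Cnd ψ A) (u' : U ψ A) (h : u' ≤ p.u) : Cnd ψ A :=
  ⟨u', p.s, p.B, fun b hb => ok_mono h (p.ok b hb)⟩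

theorem Cnd.withU_le (p : Cnd ψ A) (u' : U ψ A) (h : u' ≤ p.u) : p.withU u' h ≤ p :=
  ⟨h, Finset.Subset.refl _, Finset.Subset.refl _, fun _ hj hj' => absurd hj hj'⟩

open Classical in
/-- adding the promises of another condition -/
noncomputable def Cnd.join (p q : Cnd ψ A) (h : p.u ≤ q.u) : Cnd ψ A :=
  ⟨p.u, p.s, p.B ∪ q.B, fun b hb => by
    rcases Finset.mem_union.mp hb with h1 | h1
    · exact p.ok b h1
    · exact ok_mono h (q.ok b h1)⟩

theorem Cnd.join_le_left (p q : Cnd ψ A) (h : p.u ≤ q.u) : p.join q h ≤ p := by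
  classical
  refine ⟨le_rfl, Finset.Subset.refl _, ?_, fun _ hj hj' => absurd hj hj'⟩
  exact Finset.subset_union_left

theorem Cnd.join_le_right (p q : Cnd ψ A) (h : p.u ≤ q.u) (hs : q.s ⊆ p.s)
    (hd : ∀ j ∈ p.s, j ∉ q.s → ∀ b ∈ q.B, j ∉ ad b) : p.join q h ≤ q := by
  classical
  exact ⟨h, hs, Finset.subset_union_right, hd⟩

theorem Cnd.join_le_right' (p q : Cnd ψ A) (h : p.u ≤ q.u) (hs : q.s = p.s) : p.join q h ≤ q :=
  p.join_le_right q h hs.subset fun j hj hj' => absurd (hs ▸ hj) hj'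

/-- The coding poset preserves stationary subsets of `ω₁`. -/
theorem statPres_cnd (hG : Guess ψ A) : StatPres (Cnd ψ A) := by
  intro S hS F p hp
  rw [mem_fex]
  intro q hq
  let D : U ψ A → Om → Finset ℕ → Prop := fun u i s =>
    ∃ c : Cnd ψ A, c.u = u ∧ c.s = s ∧ c ≤ q ∧ ∃ η < u.len, c ∈ meets (F i η)
  have hD : ∀ u u' i s, D u i s → u' ≤ u → D u' i s := by
    rintro u u' i s ⟨c, rfl, rfl, hcq, η, hη, hc⟩ hu
    exact ⟨c.withU u' hu, rfl, rfl, (c.withU_le u' hu).trans hcq, η, hη.trans_le hu.1,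
      down_meets _ c hc _ (c.withU_le u' hu)⟩
  let T : Om → ℕ → Set (U ψ A) := fun i k => {u | D u i (fs k) ∨ ∀ u' ≤ u, ¬ D u' i (fs k)}
  obtain ⟨us, hus, hlS, hl0, hT⟩ := fusion hG T (by
      rintro i k u u' (h | h) hu
      · exact Or.inl (hD _ _ _ _ h hu)
      · exact Or.inr fun u'' hu'' => h u'' (hu''.trans hu))
    (by
      intro i k u
      by_cases h : ∃ u' ≤ u, D u' i (fs k)
      · obtain ⟨u', hu', h'⟩ := h
        exact ⟨u', hu', Or.inl h'⟩
      · push Not at h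
        exact ⟨u, le_rfl, Or.inr h⟩) hS q.u
  refine ⟨q.withU us hus, q.withU_le us hus, us.len, ⟨hlS, hl0⟩, ?_⟩
  intro γ hγ
  rw [mem_fex]
  intro r hr
  have hrq : r ≤ q := hr.trans (q.withU_le us hus)
  have htot := (down_IsFun F p hp r (hrq.trans hq)).1 γ
  obtain ⟨r1, hr1, η, hη⟩ := mem_fex.mp htot r le_rfl
  have hr1u : r1.u ≤ us := (hr1.trans hr).1
  obtain ⟨k, hk⟩ := fs_surj r1.s
  obtain ⟨u2, hu2, hl2, -⟩ := U.ext (osucc (max η r1.u.len)) r1.u
    ((le_max_right _ _).trans (lt_osucc _).le) ∅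
  have hD2 : D u2 γ (fs k) := by
    refine ⟨r1.withU u2 hu2, rfl, hk.symm, (r1.withU_le u2 hu2).trans (hr1.trans hrq), η, ?_,
      down_meets _ r1 hη _ (r1.withU_le u2 hu2)⟩
    rw [hl2]
    exact (le_max_left _ _).trans_lt (lt_osucc _)
  rcases hT γ hγ k with h | h
  · obtain ⟨c, hcu, hcs, -, η', hη', hc⟩ := h
    have hu : r1.u ≤ c.u := hcu ▸ hr1u
    refine ⟨r1.join c hu, (r1.join_le_left c hu).trans hr1, η', hη', ?_⟩
    exact down_meets _ c hc _ (r1.join_le_right' c hu (hcs.trans hk))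
  · exact absurd hD2 (h u2 (hu2.trans hr1u))

end Pool.Agent.Helper97.LC
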