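import Mathlib
import Pool.Agent.Helper97_LC.Poset
import Pool.Agent.Helper97_LC.ForceLeg

/-! # The coding poset forces the coding sentence -/

set_option autoImplicit false

namespace Pool.Agent.Helper97.LC

open Pool.Agent.Helper669.Forcing

variable {ψ : Fm} {A : Set Om}

/-! ### Formulas -/

/-- the number variable `K + 3` codes the first digits of the set `K` -/
def CodeF (K : ℕ) : Fm :=
  .allN (K + 4) (.iff (.bit (.var (K + 3)) (.var (K + 4)))
    (.and (.exN (K + 5) (.eq (.succ (.add (.var (K + 4)) (.var (K + 5))))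
      (.add (.var (K + 1)) (.var (K + 2))))) (.memS K (.var (K + 4)))))

/-- the set `Z` contains only finitely many elements of the almost disjoint set given by the set
`K` and the number `K` -/
def FiF (K Z : ℕ) : Fm :=
  .exN (K + 1) (.allN (K + 2) (.allN (K + 3) (.imp (CodeF K) (.neg (.memS Z
    (.pair (.var K) (.pair (.add (.var (K + 1)) (.var (K + 2))) (.var (K + 3)))))))))

/-- the number `K` is in the set computed from the term of the sequence and the set `Z` -/
def PsF (K Z : ℕ) : Fm :=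
  .exN (K + 1) (.and (.memR (Z + 1) (Z + 1) (.pair t4 (.pair (.var K) (.var (K + 1)))))
    (.and (.allN (K + 2) (.imp (.bit (.var (K + 1)) (.var (K + 2))) (.memS Z (.var (K + 2)))))
      (.allN (K + 2) (.imp (.memR (Z + 1) (Z + 1)
        (.pair t5 (.pair (.var K) (.pair (.var (K + 1)) (.var (K + 2))))))
        (.neg (.memS Z (.var (K + 2))))))))

theorem sat_CodeF (K : ℕ) (v : VV) :
    Sat (CodeF K) v ↔ Code (v.s K) (v.n (K + 1) + v.n (K + 2)) (v.n (K + 3)) := by
  simp (disch := omega) only [CodeF, sat_and, sat_or, sat_allN, sat_allO, sat_exO, sat_exN, sat_imp,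
    sat_iff, sat_neg, Sat, Val.setN, Val.setO, Function.update_self, Function.update_of_ne,
    Tm.eval, ne_eq, Code]
  refine forall_congr' fun i => iff_congr Iff.rfl (and_congr_left fun _ => ?_)
  constructor
  · rintro ⟨e, he⟩; omega
  · intro h; exact ⟨v.n (K + 1) + v.n (K + 2) - i - 1, by omega⟩

theorem fo_CodeF (K : ℕ) : FO (fun i => i = K) (fun _ => False) (CodeF K) := by
  simp only [CodeF, FO, Fm.or, Fm.iff, Fm.imp, Fm.exO, Fm.exN, and_self]

theorem bd_CodeF (K : ℕ) : (CodeF K).bd = K + 6 := by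
  simp only [CodeF, Fm.bd, Tm.bd, Fm.or, Fm.iff, Fm.imp, Fm.exO, Fm.exN]
  omega

theorem bd_FiF (K Z : ℕ) (h : K + 6 ≤ Z) : (FiF K Z).bd ≤ Z + 1 := by
  simp only [FiF, Fm.bd, Tm.bd, Fm.or, Fm.iff, Fm.imp, Fm.exO, Fm.exN, bd_CodeF]
  omega

theorem bd_PsF (K Z : ℕ) (h : K + 6 ≤ Z) : (PsF K Z).bd ≤ Z + 2 := by
  simp only [PsF, Fm.bd, Tm.bd, Fm.or, Fm.iff, Fm.imp, Fm.exO, Fm.exN, t4, t5]
  omega

theorem bd_QF (K : ℕ) : (QF K).bd = K + 3 := by
  simp only [QF, Fm.bd, Tm.bd, Fm.or, Fm.iff, Fm.imp, Fm.exO, Fm.exN]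
  omega
theorem bd_S0F (K : ℕ) : (S0F K).bd = K + 3 := by
  simp only [S0F, Fm.bd, Tm.bd, Fm.or, Fm.iff, Fm.imp, Fm.exO, Fm.exN]
  omega
theorem bd_S1F (K : ℕ) : (S1F K).bd = K + 2 := by
  simp only [S1F, Fm.bd, Tm.bd, Fm.or, Fm.iff, Fm.imp, Fm.exO, Fm.exN]
  omega
theorem bd_S2F (K : ℕ) : (S2F K).bd = K + 3 := by
  simp only [S2F, Fm.bd, Tm.bd, Fm.or, Fm.iff, Fm.imp, Fm.exO, Fm.exN, t1, t2]
  omega
theorem bd_S3F (K : ℕ) : (S3F K).bd = K + 3 := by
  simp only [S3F, Fm.bd, Tm.bd, Fm.or, Fm.iff, Fm.imp, Fm.exO, Fm.exN, t1, t2]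
  omega
theorem bd_IF (K : ℕ) : (IF K).bd = K + 2 := by
  simp only [IF, Fm.bd, Tm.bd, Fm.or, Fm.iff, Fm.imp, Fm.exO, Fm.exN]
  omega

theorem bd_chiF (ψ : Fm) (K Z : ℕ) (hψ : ψ.bd ≤ K) (h2 : 2 ≤ K) (h : K + 6 ≤ Z) :
    (chiF ψ K).bd ≤ Z := by
  simp only [chiF, Fm.bd, Fm.or, Fm.exN, Fm.exR, bd_QF, bd_S0F, bd_S1F, bd_S2F, bd_S3F, bd_IF,
    max_le_iff]
  omega

/-! ### The generic set -/

/-- the name of the generic set of numbers -/
def gen (ψ : Fm) (A : Set Om) : ℕ → Set (Cnd ψ A) := fun j => {c | j ∈ c.s}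

theorem gen_mem {c : Cnd ψ A} {j : ℕ} (h : j ∈ c.s) : c ∈ meets (gen ψ A j) :=
  fun q hq => ⟨q, le_rfl, q, hq.2.1 h, le_rfl⟩

theorem gen_ext {c : Cnd ψ A} {j : ℕ} (h : c ∈ meets (gen ψ A j)) : ∃ c' ≤ c, j ∈ c'.s := by
  obtain ⟨r, hr, s, hs, hrs⟩ := h c le_rfl
  exact ⟨r, hr, hrs.2.1 hs⟩

theorem gen_exts {c : Cnd ψ A} {F : Finset ℕ} (h : ∀ j ∈ F, c ∈ meets (gen ψ A j)) :
    ∃ c' ≤ c, F ⊆ c'.s := by
  classical
  induction F using Finset.induction with
  | empty => exact ⟨c, le_rfl, by simp⟩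
  | insert a F _ ih =>
    obtain ⟨c1, hc1, h1⟩ := ih fun j hj => h j (Finset.mem_insert_of_mem hj)
    obtain ⟨c2, hc2, h2⟩ := gen_ext (down_meets _ c (h a (Finset.mem_insert_self _ _)) c1 hc1)
    refine ⟨c2, hc2.trans hc1, ?_⟩
    intro j hj
    rcases Finset.mem_insert.mp hj with rfl | hj
    · exact h2
    · exact hc2.2.1 (h1 hj)

theorem code_fo {K : ℕ} {w : FV (Cnd ψ A)} {b : ℕ → Prop} (hb : w.s K = chkS b) (c : Cnd ψ A) :
    c ∈ FSat (Cnd ψ A) (CodeF K) w ↔ Code b (w.n (K + 1) + w.n (K + 2)) (w.n (K + 3)) := by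
  rw [fo_abs (CodeF K) (fo_CodeF K) ⟨w.n, w.o, fun _ => b, fun _ _ _ => False⟩ w rfl rfl (by
    rintro i rfl
    exact hb) (fun i h => h.elim) c, sat_CodeF]

/-- A promised set is forced to be almost disjoint from the generic set. -/
theorem fi_of_promise {K Z : ℕ} (hZ : K + 6 ≤ Z) {w : FV (Cnd ψ A)} {b : ℕ → Prop}
    (hb : w.s K = chkS b) (hy : w.s Z = gen ψ A) {c : Cnd ψ A} (hc : (b, w.n K) ∈ c.B) :
    c ∈ FSat (Cnd ψ A) (FiF K Z) w := by
  rw [FiF, mem_exN]
  intro q hq
  refine ⟨q, le_rfl, c.s.sup id + 1, ?_⟩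
  rw [mem_allN]
  intro d
  rw [mem_allN]
  intro v
  rw [mem_imp]
  intro q1 hq1 hcode
  rw [code_fo (b := b) (by exact hb)] at hcode
  simp (disch := omega) only [Val.setN, Function.update_self, Function.update_of_ne, ne_eq] at hcode
  rw [mem_neg]
  intro q2 hq2 hm
  simp (disch := omega) only [FSat, Val.setN, Function.update_self, Function.update_of_ne, ne_eq,
    Tm.eval, hy] at hm
  obtain ⟨r, hr, hj⟩ := gen_ext hm
  have hrc : r ≤ c := ((hr.trans hq2).trans hq1).trans hq
  refine hrc.2.2.2 _ hj ?_ _ hc ⟨_, _, hcode, rfl⟩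
  intro hmem
  have h1 : Nat.pair (w.n K) (Nat.pair (c.s.sup id + 1 + d) v) ≤ c.s.sup id :=
    Finset.le_sup (f := id) hmem
  have h2 := Nat.right_le_pair (w.n K) (Nat.pair (c.s.sup id + 1 + d) v)
  have h3 := Nat.left_le_pair (c.s.sup id + 1 + d) v
  omega

theorem code_inj {b b' : ℕ → Prop} {i k v : ℕ} (hi : i < k) (h : Code b k v) (h' : Code b' k v) :
    (b i ↔ b' i) := by
  have h1 := h i
  have h2 := h' i
  constructor
  · intro hb; exact (h2.mp (h1.mpr ⟨hi, hb⟩)).2
  · intro hb; exact (h1.mp (h2.mpr ⟨hi, hb⟩)).2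

/-- A legal set which is not promised, for a number not in the term, is not forced to be almost
disjoint from the generic set. -/
theorem not_fi {K Z : ℕ} (hZ : K + 6 ≤ Z) {w : FV (Cnd ψ A)} {b : ℕ → Prop}
    (hb : w.s K = chkS b) (hy : w.s Z = gen ψ A) {c : Cnd ψ A} {l : Om} (hl : l < c.u.len)
    (hleg : Leg ψ A l c.u.x b) (hm : ¬ c.u.x l (w.n K)) : c ∉ FSat (Cnd ψ A) (FiF K Z) w := by
  classical
  intro hc
  rw [FiF, mem_exN] at hc
  obtain ⟨r, hr, N, hN⟩ := hc c le_rfl
  have hru : r.u ≤ c.u := hr.1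
  -- a large digit number
  have hdiff : ∀ b' ∈ r.B, b'.2 = w.n K → ∃ i, ¬ (b i ↔ b'.1 i) := by
    intro b' hb' h2
    by_contra hcon
    push Not at hcon
    have hbb : b'.1 = b := by
      funext i
      exact (propext (hcon i)).symm
    obtain ⟨l', hl', hleg', hx'⟩ := r.ok b' hb'
    rw [hbb] at hleg'
    have hlr : l < r.u.len := hl.trans_le hru.1
    have hleg2 : Leg ψ A l r.u.x b := leg_congr (fun ξ hξ => (hru.2 ξ (hξ.trans hl)).symm) hleg
    have e1 : l' ≤ l := QL_uniq hleg2.1 hleg'.1 (fun ξ hξ => r.u.good.ne ξ (hξ.trans hl'))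
      (fun ξ hξ η hη => r.u.good.inj ξ (hξ.trans hl') η (hη.trans hl'))
    have e2 : l ≤ l' := QL_uniq hleg'.1 hleg2.1 (fun ξ hξ => r.u.good.ne ξ (hξ.trans hlr))
      (fun ξ hξ η hη => r.u.good.inj ξ (hξ.trans hlr) η (hη.trans hlr))
    have e3 : l' = l := le_antisymm e1 e2
    rw [e3, hru.2 l hl, h2] at hx'
    exact hm hx'
  have hex : ∀ b' : (ℕ → Prop) × ℕ, ∃ i, b' ∈ r.B → b'.2 = w.n K → ¬ (b i ↔ b'.1 i) := by
    intro b'
    by_cases h1 : b' ∈ r.B ∧ b'.2 = w.n K
    · obtain ⟨i, hi⟩ := hdiff b' h1.1 h1.2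
      exact ⟨i, fun _ _ => hi⟩
    · exact ⟨0, fun h2 h3 => absurd ⟨h2, h3⟩ h1⟩
  choose ι hι using hex
  let d := r.B.sup ι + 1
  obtain ⟨v, hv⟩ := exists_code b (N + d)
  let j := Nat.pair (w.n K) (Nat.pair (N + d) v)
  have hjad : ∀ b' ∈ r.B, j ∉ ad b' := by
    rintro b' hb' ⟨k, v', hcode, hj⟩
    obtain ⟨h1, h2⟩ := Nat.pair_eq_pair.mp hj
    obtain ⟨h3, h4⟩ := Nat.pair_eq_pair.mp h2
    rw [← h3, ← h4] at hcode
    refine hι b' hb' h1.symm (code_inj ?_ hv hcode)
    have h5 : ι b' ≤ r.B.sup ι := Finset.le_sup hb'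
    show ι b' < N + (r.B.sup ι + 1)
    omega
  let c' : Cnd ψ A := ⟨r.u, insert j r.s, r.B, r.ok⟩
  have hc' : c' ≤ r := by
    refine ⟨le_rfl, Finset.subset_insert _ _, Finset.Subset.refl _, ?_⟩
    intro i hi hi' b' hb'
    rcases Finset.mem_insert.mp hi with rfl | h1
    · exact hjad b' hb'
    · exact absurd h1 hi'
  have h1 := mem_imp.mp (mem_allN.mp (mem_allN.mp hN d) v) c' hc' (by
    rw [code_fo (b := b) (by exact hb)]
    simp (disch := omega) only [Val.setN, Function.update_self, Function.update_of_ne, ne_eq]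
    exact hv)
  rw [mem_neg] at h1
  refine h1 c' le_rfl ?_
  simp (disch := omega) only [FSat, Val.setN, Function.update_self, Function.update_of_ne, ne_eq,
    Tm.eval, hy]
  exact gen_mem (Finset.mem_insert_self _ _)

/-- Adding a promise. -/
theorem add_promise (c : Cnd ψ A) {b : (ℕ → Prop) × ℕ} {l : Om} (hl : l < c.u.len)
    (hleg : Leg ψ A l c.u.x b.1) (hm : c.u.x l b.2) : ∃ c' ≤ c, b ∈ c'.B := by
  classical
  refine ⟨⟨c.u, c.s, insert b c.B, ?_⟩, ⟨le_rfl, Finset.Subset.refl _, Finset.subset_insert _ _,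
    fun _ hj hj' => absurd hj hj'⟩, Finset.mem_insert_self _ _⟩
  intro b' hb'
  rcases Finset.mem_insert.mp hb' with rfl | h
  · exact ⟨l, hl, hleg, hm⟩
  · exact c.ok b' h

/-- Decoding a term with a legal set. -/
theorem fi_iff {K Z : ℕ} (hZ : K + 6 ≤ Z) {w : FV (Cnd ψ A)} {b : ℕ → Prop}
    {c : Cnd ψ A} (hb : EqS c (w.s K) (chkS b)) (hy : w.s Z = gen ψ A) {l : Om}
    (hl : l < c.u.len) (hleg : Leg ψ A l c.u.x b) :
    c ∈ FSat (Cnd ψ A) (FiF K Z) w ↔ c.u.x l (w.n K) := by
  have hE : EqV (Z + 1) c w (w.setS K (chkS b)) := by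
    intro i hi
    refine ⟨rfl, rfl, ?_, EqR.refl _ _⟩
    by_cases hiK : i = K
    · subst hiK
      simpa only [Val.setS, Function.update_self] using hb
    · simp only [Val.setS, Function.update_of_ne hiK]
      exact EqS.refl _ _
  have hy' : (w.setS K (chkS b)).s Z = gen ψ A := by
    simp (disch := omega) only [Val.setS, Function.update_of_ne, ne_eq, hy]
  have hb' : (w.setS K (chkS b)).s K = chkS b := by
    simp only [Val.setS, Function.update_self]
  rw [leibniz (FiF K Z) (bd_FiF K Z hZ) c _ _ hE]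
  constructor
  · intro h
    by_contra hm
    exact not_fi hZ hb' hy' hl hleg hm h
  · intro hm
    refine reg_FSat _ _ c fun q hq => ?_
    have hlq : l < q.u.len := hl.trans_le hq.1.1
    obtain ⟨c', hc', hB⟩ := add_promise q (b := (b, w.n K)) hlq
      (leg_congr (fun ξ hξ => (hq.1.2 ξ (hξ.trans hl)).symm) hleg) (by
        rw [hq.1.2 l hl]; exact hm)
    exact ⟨c', hc', fi_of_promise hZ hb' hy' hB⟩

/-- The coding poset forces the coding sentence. -/
theorem cnd_theta (hG : Guess ψ A) (hfr : Frozen ψ A) {K Z : ℕ} (hK : 2 ≤ K) (hψ : ψ.bd ≤ K)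
    (hZ : K + 6 ≤ Z) (p : Cnd ψ A) :
    p ∈ FSat (Cnd ψ A) (thetaF K Z (chiF ψ K) (FiF K Z) (PsF K Z)) (zeroF (Cnd ψ A)) := by
  classical
  have hst : StatPres (Cnd ψ A) := statPres_cnd hG
  rw [thetaF, mem_exS]
  intro p1 _
  refine ⟨p1, le_rfl, gen ψ A, ?_⟩
  rw [mem_allS]
  intro z
  rw [mem_exO]
  intro q _
  -- the tasks
  let D : U ψ A → ℕ → Finset ℕ → Prop := fun u n s =>
    ∃ c : Cnd ψ A, c.u = u ∧ c.s = s ∧ c ∈ meets (z n)
  have hD : ∀ u u' n s, D u n s → u' ≤ u → D u' n s := by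
    rintro u u' n s ⟨c, rfl, rfl, hc⟩ hu
    exact ⟨c.withU u' hu, rfl, rfl, down_meets _ c hc _ (c.withU_le u' hu)⟩
  let T : Om → ℕ → Set (U ψ A) := fun _ k =>
    {u | D u k.unpair.1 (fs k.unpair.2) ∨ ∀ u' ≤ u, ¬ D u' k.unpair.1 (fs k.unpair.2)}
  obtain ⟨us, hus, -, ⟨i0, hi0⟩, hT⟩ := fusion hG T (by
      rintro i k u u' (h | h) hu
      · exact Or.inl (hD _ _ _ _ h hu)
      · exact Or.inr fun u'' hu'' => h u'' (hu''.trans hu))
    (by
      intro i k u
      by_cases h : ∃ u' ≤ u, D u' k.unpair.1 (fs k.unpair.2)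
      · obtain ⟨u', hu', h'⟩ := h
        exact ⟨u', hu', Or.inl h'⟩
      · push Not at h
        exact ⟨u, le_rfl, Or.inr h⟩) stationary_univ q.u
  have hT' : ∀ n k, D us n (fs k) ∨ ∀ u' ≤ us, ¬ D u' n (fs k) := by
    intro n k
    have h := hT i0 hi0 (Nat.pair n k)
    simp only [T, Nat.unpair_pair] at h
    exact h
  have hdec : ∀ n k, ∃ c : Cnd ψ A, D us n (fs k) → c.u = us ∧ c.s = fs k ∧ c ∈ meets (z n) := by
    intro n k
    by_cases h : D us n (fs k)
    · obtain ⟨c, hc⟩ := h
      exact ⟨c, fun _ => hc⟩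
    · exact ⟨q, fun h' => absurd h' h⟩
  choose a ha using hdec
  -- the new term
  obtain ⟨u1, hu1, hl1, -, -, h4, h5⟩ := us.add (fun _ => False) (fun _ => False)
    (fun c => D us c.unpair.1 (fs c.unpair.2))
    (fun c => D us c.unpair.1 (fs c.unpair.2.unpair.1) ∧
      (∃ b ∈ (a c.unpair.1 c.unpair.2.unpair.1).B, c.unpair.2.unpair.2 ∈ ad b) ∧
      c.unpair.2.unpair.2 ∉ fs c.unpair.2.unpair.1)
  have h4' : ∀ n k, u1.x us.len (Nat.pair 4 (Nat.pair n k)) ↔ D us n (fs k) := by
    intro n k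
    rw [h4, Nat.unpair_pair]
  have h5' : ∀ n k j, u1.x us.len (Nat.pair 5 (Nat.pair n (Nat.pair k j))) ↔
      (D us n (fs k) ∧ (∃ b ∈ (a n k).B, j ∈ ad b) ∧ j ∉ fs k) := by
    intro n k j
    rw [h5]
    simp only [Nat.unpair_pair]
  have hγδ' : us.len < u1.len := by rw [hl1]; exact lt_osucc _
  obtain ⟨δ, hδ⟩ : ∃ δ, δ = u1.len := ⟨_, rfl⟩
  have hγδ : us.len < δ := hδ ▸ hγδ'
  let x1 : Om → ℕ → Prop := fun ξ n => ξ < δ ∧ u1.x ξ n
  have hx1 : ∀ ξ < δ, ∀ n, (x1 ξ n ↔ u1.x ξ n) := fun ξ hξ n =>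
    ⟨fun h => h.2, fun h => ⟨hξ, h⟩⟩
  refine ⟨q.withU u1 (hu1.trans hus), q.withU_le _ _, δ, ?_⟩
  rw [mem_exR]
  intro r hr
  have hru : r.u ≤ u1 := hr.1
  refine ⟨r, le_rfl, chkR x1, fbdd_chk ⟨δ, fun _ _ h => h.1⟩ r, ?_⟩
  refine mem_and.mpr ⟨?_, ?_⟩
  · -- the decoding
    rw [decF]
    refine mem_and.mpr ⟨?_, ?_⟩
    · rw [mem_allO]
      intro ξ
      rw [mem_allN]
      intro n
      rw [mem_imp]
      intro q1 _ h1
      simp (disch := omega) only [FSat, Val.setN, Val.setO, Val.setR, Val.setS,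
        Function.update_self, Function.update_of_ne, Tm.eval, mem_fground, ne_eq, chkR,
        meets_chk] at h1 ⊢
      exact h1.1
    · rw [mem_allO]
      intro l
      rw [mem_imp]
      intro q1 hq1 hlt
      have hlδ : l < δ := by
        simp (disch := omega) only [FSat, Val.setN, Val.setO, Val.setR, Val.setS,
          Function.update_self, Function.update_of_ne, Tm.eval, mem_fground, ne_eq] at hlt
        exact hlt
      have hlδ' : l < u1.len := hδ ▸ hlδ
      rw [mem_exR]
      intro q2 hq2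
      have hq2u : q2.u ≤ u1 := ((hq2.1.trans hq1.1).trans hru)
      let xl : Om → ℕ → Prop := fun ξ n => ξ < l ∧ x1 ξ n
      have hxl : ∀ ξ < l, xl ξ = u1.x ξ := by
        intro ξ hξ
        funext n
        exact propext ⟨fun h => h.2.2, fun h => ⟨hξ, hξ.trans hlδ, h⟩⟩
      have hbits : ∀ ξ < l, (xl ξ (Nat.pair 0 0) ↔ ξ ∈ A) := by
        intro ξ hξ
        rw [hxl ξ hξ]
        exact u1.good.bits ξ (hξ.trans hlδ')
      refine ⟨q2, le_rfl, chkR xl, fbdd_chk ⟨l, fun _ _ h => h.1⟩ q2, ?_⟩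
      refine mem_and.mpr ⟨?_, mem_and.mpr ⟨?_, ?_⟩⟩
      · rw [mem_allO]
        intro ξ
        rw [mem_allN]
        intro n
        rw [mem_iff]
        intro q3 _
        simp (disch := omega) only [FSat, Val.setN, Val.setO, Val.setR, Val.setS,
          Function.update_self, Function.update_of_ne, Tm.eval, mem_fground, ne_eq, chkR,
          meets_chk, mem_fand]
        exact Iff.rfl
      · rw [mem_exS]
        intro q3 hq3
        obtain ⟨b, hb⟩ := u1.good.leg l hlδ'.le
        refine ⟨q3, le_rfl, chkS b, ?_⟩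
        refine leg_forced (x := xl) (b := b) hst hfr hK hψ (lam := l) ?_ ?_ hbits ?_
          (leg_congr (fun ξ hξ => (hxl ξ hξ).symm) hb) q3
        · refine ⟨by simp (disch := omega) only [Val.setN, Val.setO, Val.setR, Val.setS,
            Function.update_self], fun i hi => ?_⟩
          refine ⟨rfl, fun hi0 => ?_, ?_, ?_⟩
          · simp (disch := omega) only [Val.setN, Val.setO, Val.setR, Val.setS,
              Function.update_self, Function.update_of_ne, ne_eq, zeroF]
          · simp (disch := omega) only [Val.setN, Val.setO, Val.setR, Val.setS,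
              Function.update_self, Function.update_of_ne, ne_eq, zeroF]
          · simp (disch := omega) only [Val.setN, Val.setO, Val.setR, Val.setS,
              Function.update_self, Function.update_of_ne, ne_eq, zeroF]
        · simp only [Val.setS, Val.setR, Function.update_self]
        · simp only [Val.setS, Function.update_self]
      · rw [mem_allS]
        intro b
        rw [mem_imp]
        intro q3 hq3 hχ
        rw [mem_allN]
        intro m
        rw [mem_iff]
        intro q4 hq4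
        have hq4u : q4.u ≤ u1 := ((hq4.1.trans hq3.1).trans hq2u)
        have hL2 : ∀ q' ≤ q4, ∃ q5 ≤ q', (q5 ∈ FSat (Cnd ψ A) (FiF K Z)
            (((((((((zeroF (Cnd ψ A)).setS Z (gen ψ A)).setS (Z + 2) z).setO Z δ).setR (Z + 1)
              (chkR x1)).setO 0 l).setR K (chkR xl)).setS K b).setN K m) ↔ u1.x l m) := by
          intro q' hq'
          obtain ⟨q5, hq5, b0, hb0, hleg⟩ := forced_leg (x := xl) hst hfr hK hψ (lam := l) (p := q3)
            (w := (((((((((zeroF (Cnd ψ A)).setS Z (gen ψ A)).setS (Z + 2) z).setO Z δ).setR (Z + 1)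
              (chkR x1)).setO 0 l).setR K (chkR xl)).setS K b)))
            (by
              refine ⟨by simp (disch := omega) only [Val.setN, Val.setO, Val.setR, Val.setS,
                Function.update_self], fun i hi => ?_⟩
              refine ⟨rfl, fun hi0 => ?_, ?_, ?_⟩
              · simp (disch := omega) only [Val.setN, Val.setO, Val.setR, Val.setS,
                  Function.update_self, Function.update_of_ne, ne_eq, zeroF]
              · simp (disch := omega) only [Val.setN, Val.setO, Val.setR, Val.setS,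
                  Function.update_self, Function.update_of_ne, ne_eq, zeroF]
              · simp (disch := omega) only [Val.setN, Val.setO, Val.setR, Val.setS,
                  Function.update_self, Function.update_of_ne, ne_eq, zeroF])
            (by simp only [Val.setS, Val.setR, Function.update_self]) hbits hχ q' (hq'.trans hq4)
          simp only [Val.setS, Function.update_self] at hb0
          have hq5u : q5.u ≤ u1 := (hq5.1.trans hq'.1).trans hq4u
          have hl5 : l < q5.u.len := hlδ.trans_le (hδ ▸ hq5u.1)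
          have hleg5 : Leg ψ A l q5.u.x b0 := by
            refine leg_congr (fun ξ hξ => ?_) hleg
            rw [hxl ξ hξ, hq5u.2 ξ (hδ ▸ hξ.trans hlδ)]
          refine ⟨q5, hq5, ?_⟩
          rw [fi_iff hZ (b := b0) (by
            simp only [Val.setN, Val.setS, Function.update_self]
            exact hb0) (by
            simp (disch := omega) only [Val.setN, Val.setO, Val.setR, Val.setS,
              Function.update_self, Function.update_of_ne, ne_eq]) hl5 hleg5]
          simp only [Val.setN, Function.update_self]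
          rw [hq5u.2 l (hδ ▸ hlδ)]
        have hlhs : q4 ∈ FSat (Cnd ψ A) (.memR (Z + 1) 0 (.var K))
            (((((((((zeroF (Cnd ψ A)).setS Z (gen ψ A)).setS (Z + 2) z).setO Z δ).setR (Z + 1)
              (chkR x1)).setO 0 l).setR K (chkR xl)).setS K b).setN K m) ↔ u1.x l m := by
          simp (disch := omega) only [FSat, Val.setN, Val.setO, Val.setR, Val.setS,
            Function.update_self, Function.update_of_ne, Tm.eval, ne_eq, chkR, meets_chk]
          exact hx1 l hlδ m
        rw [hlhs]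
        constructor
        · intro hm
          refine reg_FSat _ _ q4 fun q' hq' => ?_
          obtain ⟨q5, hq5, h6⟩ := hL2 q' hq'
          exact ⟨q5, hq5, h6.mpr hm⟩
        · intro hm
          obtain ⟨q5, hq5, h6⟩ := hL2 q4 le_rfl
          exact h6.mp (mono hm hq5)
  · -- the computation of `z`
    rw [mem_exO]
    intro q1 hq1
    refine ⟨q1, le_rfl, us.len, mem_and.mpr ⟨?_, ?_⟩⟩
    · simp (disch := omega) only [FSat, Val.setN, Val.setO, Val.setR, Val.setS,
        Function.update_self, Function.update_of_ne, Tm.eval, mem_fground, ne_eq]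
      exact hγδ
    rw [mem_allN]
    intro n
    rw [mem_iff]
    intro c hc
    have hcu : c.u ≤ u1 := (hc.1.trans hq1.1).trans hru
    have hcus : c.u ≤ us := hcu.trans hu1
    have hlhs : c ∈ FSat (Cnd ψ A) (.memS (Z + 2) (.var K))
        (((((((zeroF (Cnd ψ A)).setS Z (gen ψ A)).setS (Z + 2) z).setO Z δ).setR (Z + 1)
          (chkR x1)).setO (Z + 1) us.len).setN K n) ↔ c ∈ meets (z n) := by
      simp (disch := omega) only [FSat, Val.setN, Val.setO, Val.setR, Val.setS,
        Function.update_self, Function.update_of_ne, Tm.eval, ne_eq]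
    rw [hlhs, PsF, mem_exN]
    constructor
    · intro hz c1 hc1
      obtain ⟨k, hk⟩ := fs_surj c1.s
      have hDk : D us n (fs k) := by
        rcases hT' n k with h | h
        · exact h
        · exact absurd ⟨c1, rfl, hk.symm, down_meets _ c hz c1 hc1⟩ (h c1.u (hc1.1.trans hcus))
      obtain ⟨hau, has, -⟩ := ha n k hDk
      have hju : c1.u ≤ (a n k).u := hau ▸ (hc1.1.trans hcus)
      refine ⟨c1.join (a n k) hju, c1.join_le_left _ hju, k, mem_and.mpr ⟨?_, mem_and.mpr ⟨?_, ?_⟩⟩⟩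
      · simp (disch := omega) only [FSat, Val.setN, Val.setO, Val.setR, Val.setS,
          Function.update_self, Function.update_of_ne, Tm.eval, ne_eq, chkR, meets_chk, t4,
          zero_add, Nat.reduceAdd]
        exact ⟨hγδ, (h4' n k).mpr hDk⟩
      · rw [mem_allN]
        intro j
        rw [mem_imp]
        intro c2 hc2 hbit
        simp (disch := omega) only [FSat, Val.setN, Val.setO, Val.setR, Val.setS,
          Function.update_self, Function.update_of_ne, Tm.eval, ne_eq, mem_fground] at hbit ⊢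
        refine gen_mem (hc2.2.1 ?_)
        show j ∈ c1.s
        rw [← hk, mem_fs]
        exact hbit
      · rw [mem_allN]
        intro j
        rw [mem_imp]
        intro c2 hc2 hneg
        simp (disch := omega) only [FSat, Val.setN, Val.setO, Val.setR, Val.setS,
          Function.update_self, Function.update_of_ne, Tm.eval, ne_eq, chkR, meets_chk, t5, t4,
          zero_add, Nat.reduceAdd] at hneg
        obtain ⟨-, ⟨b, hb, hjb⟩, hjk⟩ := (h5' n k j).mp hneg.2
        rw [mem_neg]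
        intro c3 hc3 hm
        simp (disch := omega) only [FSat, Val.setN, Val.setO, Val.setR, Val.setS,
          Function.update_self, Function.update_of_ne, Tm.eval, ne_eq] at hm
        obtain ⟨c4, hc4, hj⟩ := gen_ext hm
        have hle : c4 ≤ c1.join (a n k) hju := (hc4.trans hc3).trans hc2
        refine hle.2.2.2 j hj ?_ b (Finset.mem_union_right _ hb) hjb
        show j ∉ c1.s
        rw [← hk]
        exact hjk
    · intro hz
      refine reg_meets _ c fun c1 hc1 => ?_
      obtain ⟨c2, hc2, k, h6⟩ := hz c1 hc1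
      obtain ⟨h7, h8, h9⟩ := h6
      simp (disch := omega) only [FSat, Val.setN, Val.setO, Val.setR, Val.setS,
          Function.update_self, Function.update_of_ne, Tm.eval, ne_eq, chkR, meets_chk, t4,
          zero_add, Nat.reduceAdd] at h7
      have hDk : D us n (fs k) := (h4' n k).mp h7.2
      obtain ⟨hau, has, haz⟩ := ha n k hDk
      have hpos : ∀ j ∈ fs k, c2 ∈ meets (gen ψ A j) := by
        intro j hj
        have h10 := mem_imp.mp (mem_allN.mp h8 j) c2 le_rfl (by
          simp (disch := omega) only [FSat, Val.setN, Val.setO, Val.setR, Val.setS,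
            Function.update_self, Function.update_of_ne, Tm.eval, ne_eq, mem_fground]
          exact mem_fs.mp hj)
        simp (disch := omega) only [FSat, Val.setN, Val.setO, Val.setR, Val.setS,
          Function.update_self, Function.update_of_ne, Tm.eval, ne_eq] at h10
        exact h10
      obtain ⟨c3, hc3, hsub⟩ := gen_exts hpos
      have hc3u : c3.u ≤ (a n k).u := by
        rw [hau]
        exact ((hc3.1.trans hc2.1).trans hc1.1).trans hcus
      refine ⟨c3.join (a n k) hc3u, (c3.join_le_left _ hc3u).trans (hc3.trans hc2), ?_⟩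
      refine down_meets _ _ haz _ (c3.join_le_right _ hc3u (has ▸ hsub) ?_)
      intro j hj hj' b hb hjb
      have h10 := mem_imp.mp (mem_allN.mp h9 j) c3 hc3 (by
        simp (disch := omega) only [FSat, Val.setN, Val.setO, Val.setR, Val.setS,
          Function.update_self, Function.update_of_ne, Tm.eval, ne_eq, chkR, meets_chk, t5, t4,
          zero_add, Nat.reduceAdd]
        exact ⟨hγδ, (h5' n k j).mpr ⟨hDk, ⟨b, hb, hjb⟩, has ▸ hj'⟩⟩)
      rw [mem_neg] at h10
      refine h10 c3 le_rfl ?_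
      simp (disch := omega) only [FSat, Val.setN, Val.setO, Val.setR, Val.setS,
        Function.update_self, Function.update_of_ne, Tm.eval, ne_eq]
      exact gen_mem hj

end Pool.Agent.Helper97.LC
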